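import Pool.Agent.P.MP_4197d5_co.R.HH

/-! The tight structure of a closed system. -/

namespace Pool.Agent.P.MP_4197d5_co

open Classical

set_option linter.unusedSectionVars false

section CQS

variable {V ι : Type} [Fintype ι] [Fintype V] {E : V → V → Prop} {t : ι → V} {l : ι → ι} {k : ℕ}
  {σ : ι → List V} {m : ι → ι} {C : Finset ι} {col : ι → Bool} {k1 k2 : ℕ} {Γ : Finset V}
  {M : Set V} {D : Bool → Finset ι} {X : Bool → Finset V} {pre mid : ι → List V} {gate : ι → V}

/-- separator bound for a region made of `M` and some ends of colour `c` -/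
theorem CS.sepR (hC : Cx E t l k) (S : CS E t l k σ m C col k1 k2 Γ M D X pre mid gate)
    (c : Bool) (B : Finset ι) (hB : ∀ d ∈ B, d ∈ C ∧ col d = c) (T : Finset V)
    (hT : ∀ d ∈ C, col d = c → d ∉ B → t d ∈ T)
    (hN : ∀ d ∈ B, ∀ v, E (t d) v → v ∈ X c ∨ (∃ u ∈ D c, v = gate u) → v ∈ T)
    (hne : (∃ w, w ∈ M) ∨ B.Nonempty) : k2 ≤ Γ.card + T.card := by
  have key : k ≤ ((C.filter fun d => col d = !c).image t ∪ (Γ ∪ T)).card := by
    obtain ⟨y, hy⟩ : ∃ y, y ∈ {v | v ∈ M ∨ ∃ d ∈ B, v = t d} := by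
      rcases hne with ⟨w, hw⟩ | ⟨d, hd⟩
      · exact ⟨w, Or.inl hw⟩
      · exact ⟨t d, Or.inr ⟨d, hd, rfl⟩⟩
    have hE : ∀ d ∈ C, t d ∈ {v | v ∈ M ∨ ∃ d ∈ B, v = t d} ∨
        t d ∈ (C.filter fun d => col d = !c).image t ∪ (Γ ∪ T) := by
      intro d hd
      by_cases e : col d = c
      · by_cases e' : d ∈ B
        · exact Or.inl (Or.inr ⟨d, e', rfl⟩)
        · exact Or.inr (by simp [hT d hd e e'])
      · refine Or.inr (Finset.mem_union_left _ (Finset.mem_image_of_mem _ ?_))
        rw [Finset.mem_filter]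
        refine ⟨hd, ?_⟩
        revert e; cases col d <;> cases c <;> simp
    refine hC.hk.hkJ hC.tinj _ _ y (Finset.univ \ C.filter fun d => col d = c) hy ?_ ?_ ?_ ?_
    · rintro j hj (h | ⟨d, hd, e⟩)
      · exact S.Mnt _ h j rfl
      · rw [hC.tinj e] at hj
        simp [hB d hd] at hj
    · rw [Finset.card_univ_sdiff, S.k1c c, hC.card]
      have := S.hk
      omega
    · rintro x (hx | ⟨d, hd, rfl⟩) w (e | ⟨i, e1, e2⟩)
      · rcases S.N1 x hx w e with h | h | ⟨d, hd, rfl⟩
        · exact Or.inl (Or.inl h)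
        · exact Or.inr (by simp [h])
        · exact hE d hd
      · exact absurd e1 (S.Mnt x hx i)
      · rcases S.N2 d (hB d hd).1 w e with h | h | ⟨d', hd', rfl⟩ | h
        · exact Or.inl (Or.inl h)
        · exact Or.inr (by simp [h])
        · exact hE d' hd'
        · rw [(hB d hd).2] at h
          exact Or.inr (by simp [hN d hd w e h])
      · rw [e2, ← hC.tinj e1]
        exact hE _ (S.lC (hB d hd).1)
    · have key : ∀ i, t i ∈ {v | v ∈ M ∨ ∃ d ∈ B, v = t d} → col i = c := by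
        rintro i (h | ⟨d, hd, e⟩)
        · exact absurd rfl (S.Mnt _ h i)
        · rw [hC.tinj e]
          exact (hB d hd).2
      intro i h1 h2
      have h3 := key _ h2
      rw [S.coll, key i h1] at h3
      simp at h3
  have h1 := Finset.card_union_le ((C.filter fun d => col d = !c).image t) (Γ ∪ T)
  have h2 := Finset.card_union_le Γ T
  have h3 := Finset.card_image_le (s := C.filter fun d => col d = !c) (f := t)
  have h4 := S.k1c (!c)
  have := S.hk
  omega

/-- If `k1 = 1` then `C = {d, l d}` and `m d = l d`; the line of `d` has an inner vertex `n`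
(`Cx.noL`). `M` is empty by `Cx.hk_nt` with the separator `Γ ∪ {t d, t (l d)}` of size at most
`k2 = k - 1`, and then `K1` bounds the degree of `n` by `|Γ| - 1 + 4 ≤ k`. -/
theorem CS.k1_oneR (hC : Cx E t l k) (S : CS E t l k σ m C col k1 k2 Γ M D X pre mid gate)
    (h : k1 = 1) : False := by
  obtain ⟨d, hd⟩ := Finset.card_eq_one.1 (h ▸ S.k1c false)
  obtain ⟨d', hd'⟩ := Finset.card_eq_one.1 (h ▸ S.k1c true)
  have h0 : ∀ x, x ∈ C ∧ col x = false ↔ x = d := fun x => by
    rw [← Finset.mem_singleton (a := d), ← hd, Finset.mem_filter]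
  have h1 : ∀ x, x ∈ C ∧ col x = true ↔ x = d' := fun x => by
    rw [← Finset.mem_singleton (a := d'), ← hd', Finset.mem_filter]
  have hdC := (h0 d).2 rfl
  have e1 : l d = d' := (h1 _).1 ⟨S.lC hdC.1, by rw [S.coll, hdC.2]; rfl⟩
  have e2 : m d = d' := (h1 _).1 ⟨S.mC hdC.1, by rw [S.colm, hdC.2]; rfl⟩
  have hall : ∀ x ∈ C, x = d ∨ x = d' := fun x hx => by
    cases e : col x
    · exact Or.inl ((h0 x).1 ⟨hx, e⟩)
    · exact Or.inr ((h1 x).1 ⟨hx, e⟩)
  have g1 := S.Gcard false
  have g2 := S.two_le false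
  have g3 := S.hk
  have hM : ∀ w, w ∉ M := fun w hw => by
    have := hC.hk_nt M (insert (t d) (insert (t d') Γ)) w hw S.Mnt fun x hx v e => by
      rcases S.N1 x hx v e with a | a | ⟨y, hy, rfl⟩
      · exact Or.inl a
      · exact Or.inr (by simp [a])
      · rcases hall y hy with rfl | rfl <;> exact Or.inr (by simp)
    have a1 := Finset.card_insert_le (t d) (insert (t d') Γ)
    have a2 := Finset.card_insert_le (t d') Γ
    omega
  obtain ⟨r, hr⟩ := line_three S.st d
  have hch := S.st.link d (by simp)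
  rcases r with _ | ⟨n, r⟩
  · rw [hr] at hch
    exact hC.noL d (by rw [e1, ← e2]; simpa using hch)
  have hnt := S.st.inner_nt (i := d) (w := n) (A := [t d]) (B := r ++ [t (m d)])
    (by rw [hr]; simp) (by simp) (by simp)
  rcases S.K1 d hdC.1 n (by rw [hr]; simp) hnt with a | ⟨a, y1, y2, b⟩
  · exact hM n a
  have hnd : E n (t d) := by
    rw [hr] at hch
    simp only [List.cons_append, List.nil_append, List.isChain_cons_cons] at hch
    exact hC.symm _ _ hch.1
  have := hC.deg_nt hnt hnd (insert (t d) (insert (t d') (insert y1 (insert y2 (Γ.erase n)))))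
    fun v e => by
      rcases b v e with a | a | ⟨y, hy, rfl⟩ | rfl | rfl
      · exact absurd a (hM v)
      · have : v ≠ n := fun e' => hC.irr n (by rw [e'] at e; exact e)
        simp [a, this]
      · rcases hall y hy with rfl | rfl <;> simp
      · simp
      · simp
  have a1 := Finset.card_insert_le (t d) (insert (t d') (insert y1 (insert y2 (Γ.erase n))))
  have a2 := Finset.card_insert_le (t d') (insert y1 (insert y2 (Γ.erase n)))
  have a3 := Finset.card_insert_le y1 (insert y2 (Γ.erase n))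
  have a4 := Finset.card_insert_le y2 (Γ.erase n)
  have a5 := Finset.card_erase_of_mem a
  have a6 := Finset.card_pos.2 ⟨n, a⟩
  omega

/-- A double line can be attached to two ends of its colour. Choose `c` with `X c` nonempty if
possible. Rich case: take any `si ≠ sj` of colour `c`. Scarce case: if some end `si` of colour `c`
is adjacent to the gate of a wild index `τ`, take `q1 = []`, `q2 = mid τ`; otherwise the region
`M ∪ {ends of colour c}` has the separator `{ends of colour !c} ∪ Γ ∪ X c ∪ {gates of indices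
with empty mid}` of size `< k` (`CS.wild_card`, `Cx.hkJ` with `J` the indices not in `C` or of
colour `!c`). Both `X` empty: suppose no attachment; then each `u ∈ D c` has exactly one end
`own u` of colour `c` adjacent to `gate u` and `own (m u) = own u`; let `Σ'` be the image,
`2 |Σ'| ≤ |D c|`; the region `M ∪ {ends of colour c not in Σ'}` has the separator
`{colour !c} ∪ Σ' ∪ Γ` of size `< k`, so it is empty, `2 k1 ≤ |D c|`; of two ends of colour `c`
one owns at most half of `D c`, and `Cx.hd` for it fails. -/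
theorem CS.qdataR (hC : Cx E t l k) (S : CS E t l k σ m C col k1 k2 Γ M D X pre mid gate)
    (h : 2 ≤ k1) :
    ∃ c, ∃ τ ∈ D c, ∃ si ∈ C, ∃ sj ∈ C, si ≠ sj ∧ col si = c ∧ col sj = c ∧ ∃ q1 q2 : List V,
      (q1 ++ q2).Nodup ∧ (∀ x ∈ q1 ++ q2, x ∈ X c ∧ (¬ On σ x ∨ x ∈ mid τ)) ∧
      (gate τ :: (q1 ++ [t si])).IsChain E ∧ (gate (m τ) :: (q2 ++ [t sj])).IsChain E := by
  by_contra hcon
  by_cases hX : ∃ c, (X c).Nonempty
  · obtain ⟨c, hc⟩ := hX
    obtain ⟨τ0, hτ0⟩ := S.Dne c
    obtain ⟨s0, hs0, -, cs0⟩ := S.two_ends h c τ0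
    rcases S.rich c hc with ⟨τ, hτ, x, hx, y, hy, hne, a1, a2⟩ | ⟨a1, a2⟩
    · obtain ⟨s1, hs1, hne', cs1⟩ := S.two_ends h c s0
      refine hcon ⟨c, τ, hτ, s0, hs0, s1, hs1, hne', cs0, cs1, [x], [y], by simpa using hne,
        ?_, ?_, ?_⟩
      · intro z hz
        rcases List.mem_append.1 hz with e | e <;> rw [List.mem_singleton.1 e]
        · exact ⟨hx, a1⟩
        · exact ⟨hy, a2⟩
      · simpa using ⟨hC.symm _ _ ((S.Xc c x hx).2 τ hτ), (S.Xc c x hx).1 s0 hs0 cs0⟩
      · simpa using ⟨hC.symm _ _ ((S.Xc c y hy).2 _ (S.Dm c τ hτ)), (S.Xc c y hy).1 s1 hs1 cs1⟩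
    have hw := S.wild_card c a1
    have := S.sepR hC c (C.filter fun d => col d = c) (fun d hd => Finset.mem_filter.1 hd)
      (X c ∪ ((D c).filter fun u => ¬ mid u ≠ []).image gate)
      (fun d a b e => absurd (Finset.mem_filter.2 ⟨a, b⟩) e) ?_
      (Or.inr ⟨s0, Finset.mem_filter.2 ⟨hs0, cs0⟩⟩)
    · have b1 := Finset.card_union_le (X c) (((D c).filter fun u => ¬ mid u ≠ []).image gate)
      have b2 := Finset.card_image_le (s := (D c).filter fun u => ¬ mid u ≠ []) (f := gate)
      have b3 := Finset.card_filter_add_card_filter_not (s := D c) fun u => mid u ≠ []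
      have b4 := S.Gcard c
      have b5 := Finset.card_pos.2 hc
      omega
    rintro d hd v e (a | ⟨u, hu, rfl⟩)
    · exact Finset.mem_union_left _ a
    rw [Finset.mem_filter] at hd
    rcases a2 u hu with e' | ⟨x, e'⟩
    · exact Finset.mem_union_right _ (Finset.mem_image_of_mem _
        (Finset.mem_filter.2 ⟨hu, by simp [e']⟩))
    exfalso
    have hx : x ∈ X c := (S.dbl c u hu).2.1 x (by simp [e'])
    obtain ⟨s1, hs1, hne', cs1⟩ := S.two_ends h c d
    refine hcon ⟨c, u, hu, d, hd.1, s1, hs1, hne', hd.2, cs1, [], [x], by simp, ?_, ?_, ?_⟩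
    · intro z hz
      rw [List.mem_singleton.1 (by simpa using hz : z ∈ [x])]
      exact ⟨hx, Or.inr (by simp [e'])⟩
    · simpa using hC.symm _ _ e
    · simpa using ⟨hC.symm _ _ ((S.Xc c x hx).2 _ (S.Dm c u hu)), (S.Xc c x hx).1 s1 hs1 cs1⟩
  have hX0 : X false = ∅ := Finset.not_nonempty_iff_eq_empty.1 fun a => hX ⟨_, a⟩
  choose! own ho using S.Xe false hX0
  have h1 : ∀ u ∈ D false, ∀ d ∈ C, col d = false → E (t d) (gate u) → d = own (m u) := by
    intro u hu d hd cd e
    by_contra hne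
    obtain ⟨a1, a2, a3⟩ := ho _ (S.Dm _ u hu)
    exact hcon ⟨false, u, hu, d, hd, _, a1, hne, cd, a2, [], [], by simp, by simp,
      by simpa using hC.symm _ _ e, by simpa using hC.symm _ _ a3⟩
  have h2 : ∀ u ∈ D false, own u = own (m u) := fun u hu =>
    h1 u hu _ (ho u hu).1 (ho u hu).2.1 (ho u hu).2.2
  have h3 : 2 * ((D false).image own).card ≤ (D false).card := by
    refine pairs_count S.st.hm _ (S.Dm false) _ (fun g u => own u = g) (fun g hg => ?_)
      (fun x _ y _ u _ a b => a.symm.trans b)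
    obtain ⟨u, hu, rfl⟩ := Finset.mem_image.1 hg
    exact ⟨u, hu, rfl, (h2 u hu).symm⟩
  have g1 := S.Gcard false
  have g2 := S.two_le false
  have g3 := S.hk
  have h4 : ¬ ((∃ w, w ∈ M) ∨
      ((C.filter fun d => col d = false) \ (D false).image own).Nonempty) := fun hne => by
    have := S.sepR hC false _ (fun d hd => Finset.mem_filter.1 (Finset.mem_sdiff.1 hd).1)
      (((D false).image own).image t) (fun d a b e => ?_) ?_ hne
    · have b2 := Finset.card_image_le (s := (D false).image own) (f := t)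
      omega
    · refine Finset.mem_image_of_mem _ ?_
      by_contra e'
      exact e (Finset.mem_sdiff.2 ⟨Finset.mem_filter.2 ⟨a, b⟩, e'⟩)
    · rintro d hd v e (a | ⟨u, hu, rfl⟩)
      · rw [hX0] at a; simp at a
      · rw [Finset.mem_sdiff, Finset.mem_filter] at hd
        exact absurd (Finset.mem_image.2 ⟨_, S.Dm _ u hu, (h1 u hu d hd.1.1 hd.1.2 e).symm⟩) hd.2
  rw [not_or, Finset.not_nonempty_iff_eq_empty, Finset.sdiff_eq_empty_iff_subset] at h4
  have h5 := Finset.card_le_card h4.2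
  rw [S.k1c] at h5
  obtain ⟨d, hd, cd, hf⟩ : ∃ d ∈ C, col d = false ∧
      2 * ((D false).filter fun u => own u = d).card ≤ (D false).card := by
    obtain ⟨τ0, -⟩ := S.Dne false
    obtain ⟨s0, hs0, -, cs0⟩ := S.two_ends h false τ0
    obtain ⟨s1, hs1, hne, cs1⟩ := S.two_ends h false s0
    have b1 : (((D false).filter fun u => own u = s0) ∪
        ((D false).filter fun u => own u = s1)).card ≤ (D false).card :=
      Finset.card_le_card (Finset.union_subset (Finset.filter_subset _ _) (Finset.filter_subset _ _))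
    rw [Finset.card_union_of_disjoint (Finset.disjoint_filter.2 fun u _ a b => hne (a.symm.trans b))]
      at b1
    by_cases b2 : 2 * ((D false).filter fun u => own u = s0).card ≤ (D false).card
    · exact ⟨s0, hs0, cs0, b2⟩
    · exact ⟨s1, hs1, cs1, by omega⟩
  have := hC.hd (t d) (Γ ∪ ((C.erase d).image t ∪ ((D false).filter fun u => own u = d).image gate))
    ⟨d, Or.inl rfl⟩ ?_
  · have b1 := Finset.card_union_le Γ
      ((C.erase d).image t ∪ ((D false).filter fun u => own u = d).image gate)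
    have b2 := Finset.card_union_le ((C.erase d).image t)
      (((D false).filter fun u => own u = d).image gate)
    have b3 := Finset.card_image_le (s := C.erase d) (f := t)
    have b4 := Finset.card_image_le (s := (D false).filter fun u => own u = d) (f := gate)
    have b5 := Finset.card_erase_of_mem hd
    have b6 := Finset.card_filter_add_card_filter_not (s := C) fun u => col u = false
    have b7 : (C.filter fun u => ¬ col u = false) = C.filter fun u => col u = true := by simp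
    rw [b7, S.k1c, S.k1c] at b6
    omega
  rintro w (e | ⟨i, e1, rfl⟩)
  · rcases S.N2 d hd w e with a | a | ⟨d', hd', rfl⟩ | a | ⟨u, hu, rfl⟩
    · exact absurd ⟨w, a⟩ h4.1
    · exact Finset.mem_union_left _ a
    · refine Finset.mem_union_right _ (Finset.mem_union_left _ (Finset.mem_image_of_mem _
        (Finset.mem_erase.2 ⟨?_, hd'⟩)))
      rintro rfl
      exact hC.irr _ e
    · rw [cd, hX0] at a; simp at a
    · rw [cd] at hu
      exact Finset.mem_union_right _ (Finset.mem_union_right _ (Finset.mem_image_of_mem _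
        (Finset.mem_filter.2 ⟨hu, (h2 u hu).trans (h1 u hu d hd cd e).symm⟩)))
  · rw [← hC.tinj e1]
    exact Finset.mem_union_right _ (Finset.mem_union_left _ (Finset.mem_image_of_mem _
      (Finset.mem_erase.2 ⟨hC.hl.fpf d, S.lC hd⟩)))

end CQS

section CSxS

variable {V ι : Type} [Fintype ι] [Fintype V] {E : V → V → Prop} {t : ι → V} {l : ι → ι} {k : ℕ}
  {σ : ι → List V} {m : ι → ι} {c : ι} {col : ι → Bool}

namespace CSx

variable {C : Finset ι} {Cls : Set V} {s : Bool → V} {A X : V → Set V}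

variable {pre mid : ι → List V} {gate : ι → V}

theorem mainR (hC : Cx E t l k) (H1 : Sep E t l k (OneE t l)) (hM : EMax E t l)
    (hn : ¬ Sol E t l) (h : St E t σ m ∅)
    (hCC : ∀ x ∈ C, ∀ y, y ∈ C ↔ cc l m ∅ x y) (hc : c ∈ C) (hmin : C.card ≤ Cᶜ.card)
    (c1 : ∀ x, col (l x) = !col x) (c2 : ∀ x, col (m x) = !col x)
    (S : DS E t σ m C col Cls s A X) :
    ∃ k1 k2 Γ M D X' pre mid gate, CS E t l k σ m C col k1 k2 Γ M D X' pre mid gate := by
  have hm := h.hm
  have hCl : ∀ u ∈ C, l u ∈ C := fun u hu => (hCC u hu _).2 (cc.stl u)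
  have hCm : ∀ u, m u ∈ C → u ∈ C := fun u hu => (hCC _ hu _).2 (cc.stm0 u).symm
  obtain ⟨pre, mid, gate, hg⟩ := h.gates (Aall Cls A)
  replace hg : Gt σ m (Aall Cls A) pre mid gate := hg
  obtain ⟨k1, hk1⟩ : ∃ k1, ∀ b, (C.filter fun d => col d = b).card = k1 := by
    refine ⟨(C.filter fun d => col d = false).card, fun b => ?_⟩
    cases b
    · rfl
    · exact le_antisymm (col_card hC.hl hCl c1 true) (col_card hC.hl hCl c1 false)
  have hCc : C.card = 2 * k1 := by
    have h1 := Finset.card_filter_add_card_filter_not (s := C) (fun d => col d = false)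
    have h2 : (C.filter fun d => ¬ col d = false) = C.filter fun d => col d = true := by
      simp
    rw [h2, hk1, hk1] at h1
    omega
  have hNc : C.card + Cᶜ.card = 2 * k := by rw [Finset.card_add_card_compl, hC.card]
  have hex : ∀ b, ∃ d ∈ C, col d = b := fun b => by
    by_cases hb : col c = b
    · exact ⟨c, hc, hb⟩
    · exact ⟨l c, hCl c hc, by rw [c1, Bool.eq_not_of_ne hb, Bool.not_not]⟩
  have hk1p : 1 ≤ k1 := by
    have := Finset.card_pos.2 ⟨c, hc⟩
    omega
  obtain ⟨k2, hk⟩ : ∃ k2, k = k1 + k2 := ⟨k - k1, by omega⟩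
  have hJ : k ≤ Cᶜ.card := by omega
  have hti : ∀ b, ((C.filter fun d => col d = b).image t).card ≤ k1 := fun b =>
    hk1 b ▸ Finset.card_image_le
  have hY : ∀ b, k2 ≤ (WW σ m C Cls s A).card + (GG σ m C (Aall Cls A)).card +
      (Dk σ m C (A (s b))).card := by
    intro b
    obtain ⟨d, hd, hb⟩ := hex b
    have h1 := hC.hk.hkJ hC.tinj (YY t σ m C col Cls s A X b)
      ((C.filter fun d => col d = !b).image t ∪ WW σ m C Cls s A ∪ GG σ m C (Aall Cls A) ∪
        (Dk σ m C (A (s b))).image gate) (t d) Cᶜ (Or.inl ⟨d, hd, hb, rfl⟩)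
      (fun j hj e => Finset.mem_compl.1 hj (YY_tR hC.toCb h S e).1) hJ (fun x hx v e => by
        simp only [Finset.mem_union, Finset.mem_image, Finset.mem_filter]
        rcases YY_clR hC.toCb h hCm hCl c1 S hg hx e with
          h1 | ⟨d, a1, a2, a3⟩ | h1 | h1 | ⟨u, a1, a2⟩
        · exact Or.inl h1
        · exact Or.inr (Or.inl (Or.inl (Or.inl ⟨d, ⟨a1, a2⟩, a3.symm⟩)))
        · exact Or.inr (Or.inl (Or.inl (Or.inr h1)))
        · exact Or.inr (Or.inl (Or.inr h1))
        · exact Or.inr (Or.inr ⟨u, a1, a2.symm⟩))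
      (fun i a1 a2 => by
        have a3 := (YY_tR hC.toCb h S a2).2
        rw [c1, (YY_tR hC.toCb h S a1).2] at a3
        simp at a3)
    have h2 := h1.trans ((Finset.card_union_le _ _).trans (Nat.add_le_add
      ((Finset.card_union_le _ _).trans (Nat.add_le_add_right (Finset.card_union_le _ _) _))
      Finset.card_image_le))
    have h3 := hti (!b)
    omega
  have hG := GG_card (σ := σ) hm hCm (Aall Cls A)
  have hW := WW_card hm hCm S
  have hP := part_card S
  have hY0 := hY false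
  have hY1 := hY true
  have hδ : ∀ b, (WW σ m C Cls s A).card + (GG σ m C (Aall Cls A)).card +
      (Dk σ m C (A (s b))).card = k2 := by
    intro b; cases b <;> omega
  have hW2 : ∀ w ∈ WW σ m C Cls s A, (Dk σ m C (A w)).card ≤ 2 := fun w hw => by
    have := WW_card' hm hCm S hw
    omega
  have hne : ∀ b, (Dk σ m C (A (s b))).Nonempty := by
    intro b
    by_contra h0
    have h1 : ∀ b', Dk σ m C (A (s b')) = ∅ := fun b' => by
      rw [Finset.not_nonempty_iff_eq_empty, ← Finset.card_eq_zero] at h0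
      have := hδ b
      have := hδ b'
      rw [← Finset.card_eq_zero]
      omega
    obtain ⟨d1, hd1, hb1⟩ := hex true
    set R : Finset V := ((C.filter fun d => col d = true).erase d1).image t with hR
    have mR : ∀ i, t i ∈ R ↔ i ≠ d1 ∧ i ∈ C ∧ col i = true := fun i => by
      rw [hR, hC.tinj.mem_finset_image, Finset.mem_erase, Finset.mem_filter]
    have cR : R.card + 1 ≤ k1 := by
      have a1 : R.card ≤ _ := Finset.card_image_le
      rw [Finset.card_erase_of_mem (Finset.mem_filter.2 ⟨hd1, hb1⟩), hk1] at a1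
      omega
    have h2 := H1.hkJ hC.tinj {v | (∃ b, v ∈ YY t σ m C col Cls s A X b) ∧ v ∉ R}
      (WW σ m C Cls s A ∪ GG σ m C (Aall Cls A) ∪ R) (t d1) Cᶜ
      ⟨⟨true, Or.inl ⟨d1, hd1, hb1, rfl⟩⟩, fun e => ((mR d1).1 e).1 rfl⟩
      (fun j hj ⟨⟨_, e⟩, _⟩ => Finset.mem_compl.1 hj (YY_tR hC.toCb h S e).1) hJ
      (fun x ⟨⟨b', hx⟩, _⟩ v e => by
        by_cases hv : v ∈ R
        · exact Or.inr (Finset.mem_union_right _ hv)
        rcases YY_clR hC.toCb h hCm hCl c1 S hg hx e with
          h1 | h1 | h1 | h1 | ⟨u, a1, -⟩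
        · exact Or.inl ⟨⟨b', h1⟩, hv⟩
        · exact Or.inl ⟨⟨!b', Or.inl h1⟩, hv⟩
        · exact Or.inr (Finset.mem_union_left _ (Finset.mem_union_left _ h1))
        · exact Or.inr (Finset.mem_union_left _ (Finset.mem_union_right _ h1))
        · rw [h1] at a1; simp at a1)
      (by
        have key : ∀ i, t i ∈ {v | (∃ b, v ∈ YY t σ m C col Cls s A X b) ∧ v ∉ R} →
            col i = true → i = d1 := by
          rintro i ⟨⟨b', a1⟩, a2⟩ a3
          by_contra a4
          exact a2 ((mR i).2 ⟨a4, (YY_tR hC.toCb h S a1).1, a3⟩)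
        have key2 : ∀ i, t i ∈ {v | (∃ b, v ∈ YY t σ m C col Cls s A X b) ∧ v ∉ R} →
            t (l i) ∈ {v | (∃ b, v ∈ YY t σ m C col Cls s A X b) ∧ v ∉ R} →
            i = d1 ∨ l i = d1 := fun i a1 a2 => by
          cases a3 : col i
          · exact Or.inr (key _ a2 (by rw [c1, a3]; rfl))
          · exact Or.inl (key _ a1 a3)
        intro i j a1 a2 a3 a4
        rcases key2 i a1 a2 with e1 | e1 <;> rcases key2 j a3 a4 with e2 | e2
        · exact Or.inl (e2.trans e1.symm)
        · exact Or.inr (by rw [e1, ← e2, hC.hl.inv])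
        · exact Or.inr (e2.trans e1.symm)
        · exact Or.inl (hC.hl.inj (e2.trans e1.symm)))
    have h3 := h2.trans ((Finset.card_union_le _ _).trans
      (Nat.add_le_add_right (Finset.card_union_le _ _) _))
    have := hδ b
    rw [h1 b, Finset.card_empty] at this
    omega
  have hδ2 : 2 ≤ (Dk σ m C (A (s false))).card := by
    obtain ⟨u, hu⟩ := hne false
    exact two_le hm (fun i hi => Dk_m hm hCm hi) hu
  have hXo : ∀ w, Ordi σ m C Cls s w → ∀ x, x ∉ X w := by
    intro w hw x hx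
    have h1 := hC.hk_nt (X w) ({w} ∪ GG σ m C (Aall Cls A) ∪ (Dk σ m C (A w)).image gate) x hx
      (fun y hy => X_nt h S hw.1 hy) (fun y hy v e => by
        simp only [Finset.mem_union, Finset.mem_image, Finset.mem_singleton]
        rcases NBX hm hCm S hg hw.1 hw.2.1 hy e with
          (⟨d, -, a, -⟩ | ⟨-, a⟩) | h1 | h1 | ⟨u, a1, a2⟩
        · exact absurd a (hw.2.2 _)
        · exact Or.inr (Or.inl (Or.inl a))
        · exact Or.inl h1
        · exact Or.inr (Or.inl (Or.inr h1))
        · exact Or.inr (Or.inr ⟨u, a1, a2.symm⟩))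
    have h2 := h1.trans ((Finset.card_union_le _ _).trans (Nat.add_le_add
      (Finset.card_union_le _ _) Finset.card_image_le))
    rw [Finset.card_singleton] at h2
    have h3 := hδ false
    by_cases hw' : w ∈ WW σ m C Cls s A
    · have := hW2 w hw'
      have := Finset.card_pos.2 ⟨w, hw'⟩
      omega
    · have : (Dk σ m C (A w)).card = 0 := by
        rw [Finset.card_eq_zero, ← Finset.not_nonempty_iff_eq_empty]
        exact fun e => hw' (mem_WW.2 ⟨hw, e⟩)
      omega
  have hs : ∀ b b', s b = s b' → b = b' := by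
    intro b b' e
    cases b <;> cases b'
    · rfl
    · exact absurd e S.d0'
    · exact absurd e.symm S.d0'
    · rfl
  let X' : Bool → Finset V := fun b => Finset.univ.filter fun x => x ∈ X (s b)
  have hX' : ∀ b x, x ∈ X' b ↔ x ∈ X (s b) := fun b x => by simp [X']
  have hO : ∀ v, Ordi σ m C Cls s v → v ∈ {w | Ordi σ m C Cls s w ∧ w ∉ WW σ m C Cls s A} ∨
      v ∈ WW σ m C Cls s A ∪ GG σ m C (Aall Cls A) := fun v hv => by
    by_cases hw : v ∈ WW σ m C Cls s A
    · exact Or.inr (Finset.mem_union_left _ hw)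
    · exact Or.inl ⟨hv, hw⟩
  let Z : Bool → Finset V := fun b => (C.filter fun d => col d = b).image t ∪
    GG σ m C (Aall Cls A) ∪ (Dk σ m C (A (s b))).image gate
  have hZ : ∀ b, (Z b).card ≤ k := fun b => by
    have h2 : (Z b).card ≤ _ := (Finset.card_union_le _ _).trans (Nat.add_le_add
      (Finset.card_union_le _ _) Finset.card_image_le)
    have := hti b
    have := hδ b
    omega
  have hZN : ∀ b, ∀ x ∈ X' b, ∀ v, E x v → v ∈ X' b ∨ v ∈ Z b := fun b x hx v e => by
    simp only [Z, Finset.mem_union, Finset.mem_image, Finset.mem_filter, hX']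
    rcases NBX hm hCm S hg (S.d0 b).1 (S.d0 b).2 ((hX' b x).1 hx) e with
      (⟨d, a1, a2, a3⟩ | ⟨a, -⟩) | h1 | h1 | ⟨u, a1, a2⟩
    · exact Or.inr (Or.inl (Or.inl ⟨d, ⟨a1, (hs _ _ a2).symm⟩, a3.symm⟩))
    · exact absurd rfl (a.2.2 b)
    · exact Or.inl h1
    · exact Or.inr (Or.inl (Or.inr h1))
    · exact Or.inr (Or.inr ⟨u, a1, a2.symm⟩)
  have hXnt : ∀ b, ∀ x ∈ X' b, ∀ i, x ≠ t i := fun b x hx =>
    X_nt h S (S.d0 b).1 ((hX' b x).1 hx)
  refine ⟨k1, k2, WW σ m C Cls s A ∪ GG σ m C (Aall Cls A),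
    {w | Ordi σ m C Cls s w ∧ w ∉ WW σ m C Cls s A}, fun b => Dk σ m C (A (s b)), X', pre, mid,
    gate, h, hCC, c1, c2, hk, hk1, fun b u hu => (mem_Dk.1 hu).1, fun b u hu => Dk_m hm hCm hu,
    fun b u hu hu' => ?_, hne, fun b => ?_, fun b => ?_, fun b u hu => ?_,
    fun b x hx u hu => X_on h hCm S hg (S.d0 b).1 ((hX' b x).1 hx) hu, fun b x hx => ?_, hXnt,
    fun w hw => S.d6' w hw.1, fun w hw u hu => ?_, fun w hw v e => ?_, fun d hd v e => ?_,
    fun b x hx => ⟨fun d hd hb => ?_, fun u hu => ?_⟩,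
    fun b hb => (hex b).elim fun d hd => lemI_twoR hC hM hn (X' b) (Z b) (hXnt b) (hZ b) (hZN b)
      (a := d) (Finset.mem_union_left _ (Finset.mem_union_left _
        (Finset.mem_image_of_mem _ (Finset.mem_filter.2 hd)))) hb, fun b hb u hu => ?_,
    fun d hd n hn hnt => ?_⟩
  · have := hs _ _ (DB' S (S.d0 b).1 (S.d0 (!b)).1 hu hu')
    simp at this
  · have := hδ b
    have := hδ (!b)
    omega
  · have := hδ b
    have := Finset.card_union_le (WW σ m C Cls s A) (GG σ m C (Aall Cls A))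
    omega
  · obtain ⟨e1, e2, -⟩ := shape S hg (S.d0 b).1 hu
    exact ⟨e1, fun x hx => (hX' b x).2 (mid_X hm hCm S hg (S.d0 b).1 hu hx), e2⟩
  · rw [hX'] at hx
    refine ⟨fun e => S.d7 _ (S.d0 b).1 _ (S.d0 (!b)).1 (fun e => ?_) x hx ((hX' _ x).1 e),
      fun e => S.d7' _ (S.d0 b).1 x e.1 hx⟩
    have := hs _ _ e
    simp at this
  · by_contra e
    exact hw.1.2.1 ⟨u, e, hu⟩
  · rcases NB hm hCm S hg hw.1.1 hw.1.2.1 (Or.inr (Or.inr ⟨hw.1, rfl⟩)) e with
      h1 | h1 | h1 | h1 | ⟨u, hu, -⟩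
    · exact Or.inr (Or.inr h1)
    · exact (hO v h1).imp_right Or.inl
    · exact absurd h1 (hXo w hw.1 v)
    · exact Or.inr (Or.inl (Finset.mem_union_right _ h1))
    · exact absurd (mem_WW.2 ⟨hw.1, u, hu⟩) hw.2
  · rcases NB hm hCm S hg (S.d0 (col d)).1 (S.d0 (col d)).2
      (Or.inr (Or.inl ⟨d, hd, rfl, rfl⟩)) e with h1 | h1 | h1 | h1 | h1
    · exact Or.inr (Or.inr (Or.inl h1))
    · exact (hO v h1).imp_right Or.inl
    · exact Or.inr (Or.inr (Or.inr (Or.inl ((hX' _ v).2 h1))))
    · exact Or.inr (Or.inl (Finset.mem_union_right _ h1))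
    · exact Or.inr (Or.inr (Or.inr (Or.inr h1)))
  · refine lemI_ntR hC hM hn (X' b) (Z b) (hXnt b) (hZ b) (hZN b) hx (Or.inr ?_) (hXnt b x hx d)
    exact Finset.mem_union_left _ (Finset.mem_union_left _
      (Finset.mem_image_of_mem _ (Finset.mem_filter.2 ⟨hd, hb⟩)))
  · refine lemI_ntR hC hM hn (X' b) (Z b) (hXnt b) (hZ b) (hZN b) hx
      (Or.inr (Finset.mem_union_right _ (Finset.mem_image_of_mem _ hu))) ?_
    rintro rfl
    obtain ⟨e1, -, -, g1, -⟩ := shape S hg (S.d0 b).1 hu
    have h1 := (X_on h hCm S hg (S.d0 b).1 ((hX' b _).1 hx) g1).2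
    have h2 := h.line_nodup u
    rw [e1, List.nodup_append] at h2
    exact (List.nodup_cons.1 h2.2.1).1 (List.mem_append_left _ h1)
  · obtain ⟨-, -, g1, g2, -⟩ := shape S hg (S.d0 b).1 hu
    refine S.d8 b (fun x hx => ?_) _ g1 ⟨u, (mem_Dk.1 hu).1, g2⟩
    have := (hX' b x).2 hx
    rw [hb] at this
    simp at this
  · have ho := S.d6 d hd n hn hnt
    by_cases hw : n ∈ WW σ m C Cls s A
    swap
    · exact Or.inl ⟨ho, hw⟩
    obtain ⟨u, hu⟩ := (mem_WW.1 hw).2
    refine Or.inr ⟨Finset.mem_union_left _ hw, gate u, gate (m u), fun v e => ?_⟩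
    rcases NB hm hCm S hg ho.1 ho.2.1 (Or.inr (Or.inr ⟨ho, rfl⟩)) e with
      h1 | h1 | h1 | h1 | ⟨u', hu', h1⟩
    · exact Or.inr (Or.inr (Or.inl h1))
    · exact (hO v h1).imp_right Or.inl
    · exact absurd h1 (hXo n ho v)
    · exact Or.inr (Or.inl (Finset.mem_union_right _ h1))
    · refine Or.inr (Or.inr (Or.inr ?_))
      rcases eq_pair hm (fun i hi => Dk_m hm hCm hi) hu (hW2 n hw) hu' with rfl | rfl
      · exact Or.inl h1
      · exact Or.inr h1

end CSx

/-- Sketch. `C = cl l m ∅ c`, `N` its complement, `k1` the number of indices of `C` of one colour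
(`l` swaps the colours), `|C| = 2 k1`, `|N| = 2 k2`, `k = k1 + k2`, `1 ≤ k1 ≤ k2` (`hmin`, `hp`).
Let `Aall` be the union of `A κ`, `κ ∈ Cls`, and take `St.gates` for it. `Dk κ` is the set of
`u ∈ N` with `Dbl (line u) (A κ)`; on such a line all members of `Aall` are in `A κ` and in no
other class (`d1`). `ND` is the set of `u ∈ N` with `¬ Dbl (line u) Aall`, `G` the members of
`Aall` on these lines, `W` the ordinary `w` with `Dk w` nonempty, `Do` the union of their `Dk w`.
`N` is the disjoint union of `Dk (s false)`, `Dk (s true)`, `Do`, `ND` (target classes have no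
double line by `d2`). `pairs_count` gives `2 |G| ≤ |ND|`, `2 |W| ≤ |Do|` and
`|Dk w| + 2 (|W| - 1) ≤ |Do|` for `w ∈ W`. Fact FR: `v ∈ A κ` on a target line is in `X κ`, in
`G`, or is `gate u` with `u ∈ Dk κ`. The region `Y b` made of the ends of colour `b`, `X (s b)`,
and all `w`, `X w` for ordinary `w ∉ W` has its neighbours in itself or in
`{ends of colour !b} ∪ W ∪ G ∪ gate (Dk (s b))` (`d3`, `d5`, `d2`, FR); `Cx.hkJ` gives
`k2 ≤ |W| + |G| + |Dk (s b)|`. Hence the two `Dk (s b)` have the same size `δ`,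
`|W| + |G| + δ ≤ k2`, `|Do| ≤ 2 |W|`, `|Dk w| ≤ 2`. If `δ = 0`, `Y false ∪ Y true` without all
ends of colour `true` but one has a separator of size `< k` (`J = N`). So `δ ≥ 2`. For ordinary `w`, `X w` is empty
(`Cx.hk_nt` with `{w} ∪ G ∪ gate (Dk w)`). Take `Γ = W ∪ G`, `M` the ordinary `w ∉ W`,
`D b = Dk (s b)`, `X' b = X (s b)`. `Xc`, `X2` come from `lemI_ntR`, `lemI_twoR` with
`Z = {ends of colour b} ∪ G ∪ gate (D b)`; `Xon`, `dbl` from `btw_mid`, `btw_of_mid`. -/
theorem cs_existsR (hC : Cx E t l k) (H1 : Sep E t l k (OneE t l)) (hM : EMax E t l)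
    (hn : ¬ Sol E t l) (h : St E t σ m ∅)
    (hmin : ∀ x, (cl l m ∅ c).card ≤ (cl l m ∅ x).card) (hp : ∃ p, ¬ cc l m ∅ c p)
    (c1 : ∀ x, col (l x) = !col x) (c2 : ∀ x, col (m x) = !col x)
    {Cls : Set V} {s : Bool → V} {A X : V → Set V}
    (S : DS E t σ m (cl l m ∅ c) col Cls s A X) :
    ∃ k1 k2 Γ M D X' pre mid gate,
      CS E t l k σ m (cl l m ∅ c) col k1 k2 Γ M D X' pre mid gate := by
  refine CSx.mainR (c := c) hC H1 hM hn h (fun x hx y => ?_) (mem_cl.2 (cc.refl c)) ?_ c1 c2 S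
  · rw [mem_cl] at hx ⊢
    exact ⟨fun a => hx.symm.trans a, fun a => hx.trans a⟩
  · obtain ⟨p, hp⟩ := hp
    refine (hmin p).trans (Finset.card_le_card fun y hy => Finset.mem_compl.2 fun e => hp ?_)
    exact (mem_cl.1 e).trans (mem_cl.1 hy).symm

end CSxS

end Pool.Agent.P.MP_4197d5_co
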