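import Pool.Agent.P.MP_4197d5_co.R.Base

/-! The double case under the basic hypotheses. -/

namespace Pool.Agent.P.MP_4197d5_co

open Classical

set_option linter.unusedSectionVars false

section DblCaseS

variable {V ι : Type} [Fintype ι] [Fintype V] {E : V → V → Prop} {t : ι → V} {l : ι → ι} {k : ℕ}
  {σ : ι → List V} {m : ι → ι} {e : Bool → ι} {X F : Bool → Finset V} {ty : ι → Option Bool}
  {pre mid : ι → List V} {gate : ι → V}
  {σ2 : ι → List V} {m2 : ι → ι} {e' : Bool → ι} {Y H : Bool → Finset V} {ty' : ι → Option Bool}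
  {pre' mid' : ι → List V} {gate' : ι → V} {c : Bool} {z : ι}

/-- Write `a = e c`. The terminal `z` is its own gate. Otherwise the vertices of the zone of `z`
after `t z` are off the realized lines of the swapped system (`TS.sw_on`), so not in `H c`
(`TS.Fon` of `T'`), and walking along the zone they all lie in `Y c` (`Gad.adja`, `Gad.adjX`);
then `gate z ∈ Y c ∩ F c` is adjacent to `t a`, so `t a ∈ H c`, so `t z` is adjacent to `t a`,
so `t z ∈ F c`, but `pre z` avoids `F c`. -/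
theorem dbl_gateR (hC : Cb E t l k) (T : TS E t k σ m e X F ty pre mid gate) (h1 : Rl e z)
    (h2 : Rl e (l z)) (h4 : ty z = some c) (S : SW E t l σ m e pre gate c z σ2 m2)
    (e1 : e' c = z) (e2 : e' (!c) = l z) (T' : TS E t k σ2 m2 e' Y H ty' pre' mid' gate') :
    pre z = [] ∧ gate z = t z := by
  have hs := hC.symm
  obtain ⟨R, hR⟩ := T.gate_line h1
  by_cases hp : pre z = []
  · refine ⟨hp, ?_⟩
    obtain ⟨r, hr⟩ := T.st.line_cons z
    rw [hR, hp] at hr
    exact (List.cons.inj hr).1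
  exfalso
  obtain ⟨r, hr⟩ := T.st.head_of_line hR hp
  have hzone : zone ty pre gate z = t z :: (r ++ [gate z]) := by simp [zone, h4, hr]
  have hch : (t z :: (r ++ [gate z])).IsChain E := by
    have := T.chain h1
    rw [hR, hr] at this
    exact (List.isChain_split.1 this).1
  have hnd := T.st.line_nodup z
  rw [hR, hr] at hnd
  have g' := T'.gad c
  have hY := dbl_walk g' (Or.inl (by rw [e1])) hch (fun v hv => ⟨fun hH => by
    obtain ⟨u, hu, hvu⟩ := T'.Fon c v hH
    obtain ⟨a1, a2⟩ := dbl_rl e1 e2 hu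
    exact (T.sw_on hs h1 h2 S a1 a2 hvu).2.1 (by rw [hzone]; exact List.mem_cons_of_mem _ hv),
    fun hv' => by
      rw [e1] at hv'
      refine (List.nodup_cons.1 hnd).1 ?_
      rw [← hv']
      rcases List.mem_append.1 hv with h | h
      · exact List.mem_append_left _ h
      · rw [List.mem_singleton.1 h]; simp⟩) (gate z) (by simp)
  have hF := (T.dbl z c h1 h4).2.1
  have a1 := ((T.gad c).adja _).2 (Or.inr hF)
  rcases ((g'.adjX _ hY _).1 (hs _ _ a1)).2 with h | h | h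
  · exact g'.nt _ h _ rfl
  · have a2 := (g'.adja _).2 (Or.inr h)
    rw [e1] at a2
    rcases ((T.gad c).adja _).1 (hs _ _ a2) with h' | h'
    · exact (T.gad c).nt _ h' _ rfl
    · exact (T.hpre z h1 (t z) (by rw [hr]; simp) c).1 h'
  · rw [e1] at h
    exact h1 c (hC.tinj h).symm

/-- Crossing gadgets: every `x ∈ X c` lies in `H c`, hence on a realized line `u` of the swapped
system, which is untouched (`TS.sw_on`), so `mid u = [x]`. It is not in `H (!c)` (else `t (l z)`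
is adjacent to `x`, so in `F c`, against `TS.zone_avoid`), so `ty' u = some c`, and `x` is one of
the two gates of `T'` on that line; the other gate lies before `x` in a suitable orientation
(`split_unique`). -/
theorem dbl_wildR (hC : Cb E t l k) (T : TS E t k σ m e X F ty pre mid gate)
    (hmid : ∀ u c, Rl e u → ty u = some c → (mid u).length ≤ 1) (h1 : Rl e z)
    (h2 : Rl e (l z)) (h5 : ty (l z) ≠ some c) (h7 : zone ty pre gate (l z) ≠ [])
    (S : SW E t l σ m e pre gate c z σ2 m2)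
    (e1 : e' c = z) (e2 : e' (!c) = l z) (T' : TS E t k σ2 m2 e' Y H ty' pre' mid' gate')
    {x : V} (hx : x ∈ X c) (hx' : x ∈ H c) :
    ∃ τ φ, Rl e τ ∧ Out m z (l z) τ ∧ ty τ = some c ∧ mid τ = [x] ∧ φ ∈ H c ∧
      φ ∈ pre τ ++ [gate τ] := by
  have hs := hC.symm
  obtain ⟨u, hu, hxu⟩ := T'.Fon c x hx'
  obtain ⟨a1, a2⟩ := dbl_rl e1 e2 hu
  obtain ⟨ru, ou⟩ := (T.sw_on hs h1 h2 S a1 a2 hxu).2.2.2 ⟨c, hx⟩
  obtain ⟨mu, lu⟩ := S.oth u ru ou
  obtain ⟨-, tu, xm⟩ := T.X_on hs hx (lu ▸ hxu)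
  have hm1 : mid u = [x] := by
    have := hmid u c ru tu
    rcases hmu : mid u with _ | ⟨b, _ | ⟨b', r⟩⟩
    · rw [hmu] at xm; simp at xm
    · rw [hmu] at xm; rw [List.mem_singleton.1 xm]
    · rw [hmu] at this; simp at this
  have hn : x ∉ H (!c) := by
    intro h
    have b1 := ((T'.gad (!c)).adja _).2 (Or.inr h)
    rw [e2] at b1
    rcases (((T.gad c).adjX _ hx _).1 (hs _ _ b1)).2 with h' | h' | h'
    · exact (T.gad c).nt _ h' _ rfl
    · obtain ⟨M, hM, -⟩ := T.zone_line h2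
      obtain ⟨r, hr⟩ := T.st.head_of_line (by rw [hM, List.append_assoc]) h7
      have := (T.zone_avoid hs (c := !c) h2 (by simpa using h5) (v := t (l z))
        (by rw [hr]; simp)).1
      exact this (by simpa using h')
    · exact h2 c (hC.tinj h')
  obtain ⟨b1, b2⟩ := T'.F_on' hs hx' hu hxu
  have tu' : ty' u = some c := dbl_some b1 fun h0 => by
    obtain ⟨-, d2, d3⟩ := T'.sgl u hu h0
    rcases b2 with b2 | b2
    · exact hn (b2 ▸ d3 _)
    · exact hn (b2 ▸ d2 ▸ d3 _)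
  obtain ⟨d1, d2, -, -, -⟩ := T'.dbl u c hu tu'
  obtain ⟨f1, -, -, -, f5⟩ := T.dbl u c ru tu
  have hnd := T.st.line_nodup u
  have f1' : line σ m u = (pre u ++ [gate u]) ++ x :: (gate (m u) :: (pre (m u)).reverse) := by
    rw [f1, hm1]; simp
  rw [f1'] at hnd
  rcases b2 with b2 | b2
  · have := (split_unique hnd (A' := pre' u) (by rw [← f1', ← lu, d1, ← b2])).2
    refine ⟨m u, gate' (m2 u), T.rl_m ru, ou.par T.st.hm, by rw [T.tym, tu], by rw [f5, hm1]; rfl,
      (T'.dbl (m2 u) c (T'.rl_m hu) (by rw [T'.tym, tu'])).2.1, ?_⟩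
    have g1 : gate' (m2 u) ∈ gate (m u) :: (pre (m u)).reverse := by rw [this]; simp
    simpa [or_comm] using g1
  · have := (split_unique hnd (A' := pre' u ++ gate' u :: mid' u)
      (B' := (pre' (m2 u)).reverse) (by rw [← f1', ← lu, d1, ← b2]; simp)).1
    exact ⟨u, gate' u, ru, ou, tu, hm1, d2, by rw [this]; simp⟩

/-- The double case. Write `a = e c`; by `dbl_gateR`, `t z ∈ F c`, so `t a ∈ H c` and
`X c ⊆ Y c ∪ H c`; `z ≠ j` by types.
Twin case, some `v ∈ X c ∩ Y c`: then `Y c ∪ H c ⊆ X c ∪ F c ∪ {t a}` and `t z` is adjacent to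
all of `F c` but itself. If `z = i` then `Pi = [t z]` and the next vertex of the link is a
neighbour of `t z` in `q` or in the zone of `j`: impossible. So the line of `z` is untouched;
exchange to `(z, m i)` (edge to `gate (m i)`) and `(m z, a)`, `Xch.diff`.
Crossing case: `X c ⊆ H c`, `Y c ⊆ F c`; `mid z = []` is not needed. If `z ≠ i` take `x ∈ X c` and
`τ, φ` from `dbl_wildR`: if `τ ∈ {i, m i}` then `x` is off `σ1` (`TS.f1_X`, `TS.X_on`) and `v2`
applies to the line of `z`; otherwise `fin` with `ζ = z`. If `z = i`: `q = []` (a first vertex of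
`q` would lie in `Y c ∪ H c`, both on the system) and the last vertex `ψ` of `Pj` lies in `H c`.
Take `y ∈ Y c`; `y ∈ F c`, `y ∉ F (!c)` (else `t (e (!c)) ∈ H c`, so `t z ∈ F (!c)`), so
`y = gate u` with `ty u = some c`, `u ≠ z`. If `u = m z` exchange to `(z, a)`, `(j, m z)` by the
edges `t z, t a` and `ψ, y`, `Xch.diff`. Otherwise both exchanges of `(z, j)` with `(u, m u)` are
realizable: `(z, m u), (j, u)` and `(z, u), (j, m u)` (the neighbours of `y` on its line lie in
`Y c ∪ H c`, so are adjacent to `t z`; `pre u ≠ []` as `y` is not a terminal); take the coarser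
one (`Xch.any`), then `fin` with `ζ` the new partner of `m u` (its part ends in `t z` or `y`, both
adjacent to `φ ∈ H c`), for `x ∈ X c` not in `mid u` (`Gad.two`, `hmid`). -/
theorem dbl_caseR (hC : Cb E t l k) (T : TS E t k σ m e X F ty pre mid gate)
    (hmid : ∀ u c, Rl e u → ty u = some c → (mid u).length ≤ 1)
    {i j : ι} {Pi q Pj : List V} (L : VL E σ e X ty pre gate c i j Pi q Pj)
    {σ1 : ι → List V} {m1 : ι → ι} (G : F1 E t σ m e pre gate c i j Pi q Pj σ1 m1)
    (hsp : ¬ cc l m1 ∅ i (e c)) (hz : cc l m1 ∅ i z) (hz1 : z ≠ m i) (hz2 : z ≠ m j)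
    (h1 : Rl e z) (h2 : Rl e (l z)) (h4 : ty z = some c) (h5 : ty (l z) ≠ some c)
    (h7 : zone ty pre gate (l z) ≠ []) (S : SW E t l σ m e pre gate c z σ2 m2)
    (e1 : e' c = z) (e2 : e' (!c) = l z) (T' : TS E t k σ2 m2 e' Y H ty' pre' mid' gate') :
    ∃ σ' m', St E t σ' m' ∅ ∧ Co l m1 m' ∧ cc l m' ∅ i (e c) := by
  have hs := hC.symm
  have hm := T.st.hm
  have hm1 := G.st.hm
  obtain ⟨pz, gz⟩ := dbl_gateR hC T h1 h2 h4 S e1 e2 T'
  have g := T.gad c
  have g' := T'.gad c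
  rw [e1] at g'
  obtain ⟨lz, zF, zF', -, -⟩ := T.dbl z c h1 h4
  rw [pz, gz, List.nil_append] at lz
  rw [gz] at zF zF'
  have mzF : gate (m z) ∈ F c := (T.dbl (m z) c (T.rl_m h1) (by rw [T.tym, h4])).2.1
  have ha : ∀ f ∈ F c, E (t (e c)) f := fun f hf => (g.adja f).2 (Or.inr hf)
  have hX : ∀ x ∈ X c, ∀ f ∈ F c, E x f := fun x hx f hf =>
    (g.adjX x hx f).2 ⟨fun h => g.XF x hx (h ▸ hf), Or.inr (Or.inl hf)⟩
  have hYH : ∀ y ∈ Y c, ∀ f ∈ H c, E y f := fun x hx f hf =>
    (g'.adjX x hx f).2 ⟨fun h => g'.XF x hx (h ▸ hf), Or.inr (Or.inl hf)⟩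
  have aH : t (e c) ∈ H c := ((g'.adja _).1 (hs _ _ (ha _ zF))).resolve_left
    fun h => g'.nt _ h _ rfl
  have zj : z ≠ j := fun h => L.tj (h ▸ h4)
  have tyj : ∀ u, ty u = some c → u ≠ j ∧ u ≠ m j := fun u hu =>
    ⟨fun h => L.tj (h ▸ hu), fun h => L.tj (by rw [← T.tym, ← h, hu])⟩
  have miF : gate (m i) ∈ F c := T.gate_mem (T.rl_m L.ri) (by rw [T.tym]; exact L.ti)
  have FOn : ∀ f ∈ F c, On σ f := fun f hf => by
    obtain ⟨u, -, hu⟩ := T.Fon c f hf
    exact On.of_line hu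
  have jav : ∀ w ∈ Pj, w ∉ F c ∧ w ∉ X c ∧ w ≠ t (e c) := fun w hw => by
    have := T.zone_avoid hs (c := !c) L.rj (by simpa using L.tj) (L.pj.subset hw)
    exact ⟨by simpa using this.1, this.2.1 c, this.2.2.1 c⟩
  have hPi : z = i → Pi = [t z] := fun h => by
    have a1 := L.pi
    rw [← h, zone, if_neg (by simp [h4]), pz, gz, List.nil_append] at a1
    rcases List.prefix_cons_iff.1 a1 with a2 | ⟨r, a2, a3⟩
    · exact absurd a2 L.ni
    · rw [a2, List.prefix_nil.1 a3]
  obtain ⟨Pj', ψ, hPj⟩ : ∃ Pj' ψ, Pj = Pj' ++ [ψ] :=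
    ⟨_, _, (List.dropLast_append_getLast L.nj).symm⟩
  have chla := G.st.link (e c) (by simp)
  rw [G.la] at chla
  by_cases tw : ∃ v ∈ X c, v ∈ Y c
  · obtain ⟨v, vX, vY⟩ := tw
    have zi : z ≠ i := by
      intro h
      have ch := L.ch
      rw [hPi h, hPj] at ch
      obtain ⟨w, r, e0, ew, -⟩ := dbl_head (E := E) (w := t z) (A := q) (y := ψ)
        (B := Pj'.reverse) (by simpa using ch)
      have w1 : w ∈ X c ∨ w ∈ F c ∨ w = t (e c) := by
        by_cases hwv : w = v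
        · exact Or.inl (hwv ▸ vX)
        · refine ((g.adjX v vX w).1 ((g'.adjX v vY w).2 ⟨hwv, ?_⟩)).2
          rcases (g'.adja w).1 ew with h | h
          · exact Or.inl h
          · exact Or.inr (Or.inl h)
      cases q with
      | nil =>
        have := jav ψ (by rw [hPj]; simp)
        rw [(List.cons.inj e0).1] at this
        tauto
      | cons b q =>
        have := L.free b (by simp)
        rw [(List.cons.inj e0).1] at this
        rcases w1 with h | h | h
        · exact this.2 c h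
        · exact this.1 (FOn w h)
        · exact this.1 (h ▸ T.st.t_on _)
    obtain ⟨mz, lz1⟩ := G.oth z h1 ⟨zi, hz1, zj, hz2⟩
    have mmi : m1 (m i) = e c := by rw [← G.ma, hm1.inv]
    obtain ⟨m', hx⟩ := xch_exists hm1 (a := z) (b := m i) hz1
      (by rw [mz]; exact fun h => zi (hm.inj h))
    have chz := T.chain h1
    rw [lz] at chz
    have ezg : E (t z) (gate (m i)) := by
      refine (g'.adja _).2 ?_
      rcases ((g'.adjX v vY _).1 (hX v vX _ miF)).2 with h | h | h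
      · exact Or.inl h
      · exact Or.inr h
      · obtain ⟨R, hR⟩ := T.gate_line (T.rl_m L.ri)
        have : t z ∈ line σ m (m i) := by rw [hR, ← h]; simp
        rcases T.st.t_mem_line.1 this with h' | h'
        · exact absurd h' hz1
        · exact absurd (by rw [h', hm.inv]) zi
    obtain ⟨σ', s1, -⟩ := G.st.exch0 hs hx (P1 := [t z]) (M1 := mid z)
      (Q1 := gate (m z) :: (pre (m z)).reverse) (P2 := pre (m i) ++ [gate (m i)]) (M2 := [])
      (Q2 := [t (e c)]) (c1 := []) (c2 := []) (by rw [lz1, lz]; simp)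
      (by rw [← G.ma, line_rev hm1, G.la, G.ma]; simp) (by simp) (by simp) (by simp) (by simp)
      (by simp) (by simp)
      (by simpa using ⟨ezg, (List.isChain_cons_cons.1 chla).2⟩)
      (by
        have a1 : (gate (m z) :: (pre (m z)).reverse).IsChain E :=
          chain_right (A := t z :: mid z) (by simpa using chz)
        have a2 := chain_rev hs (List.isChain_cons_cons.2 ⟨ha _ mzF, a1⟩)
        simpa using a2)
    obtain ⟨c1, c2⟩ := hx.diff hC.hl hm1 fun h =>
      hsp (hz.trans (h.trans (cc.of_eq mmi)))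
    exact ⟨σ', m', s1, c2, (c2 _ _ hz).trans (c1.trans (cc.of_eq (hx.hma.trans mmi)))⟩
  push Not at tw
  have XH : ∀ x ∈ X c, x ∈ H c := fun x hx =>
    ((g'.adja x).1 (hs _ _ (hX x hx _ zF))).resolve_left (tw x hx)
  have YF : ∀ y ∈ Y c, y ∈ F c := fun y hy =>
    ((g.adja y).1 (hs _ _ (hYH y hy _ aH))).resolve_left fun h => tw y h hy
  have lτ : ∀ τ x, Rl e τ → ty τ = some c → mid τ = [x] →
      line σ m τ = pre τ ++ gate τ :: ([x] ++ gate (m τ) :: (pre (m τ)).reverse) ∧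
        gate τ ∈ F c ∧ gate (m τ) ∈ F c := fun τ x r1 r2 r3 => by
    obtain ⟨f1, f2, -⟩ := T.dbl τ c r1 r2
    exact ⟨by rw [f1, r3], f2, (T.dbl (m τ) c (T.rl_m r1) (by rw [T.tym, r2])).2.1⟩
  by_cases zi : z ≠ i
  · obtain ⟨mz, lz1⟩ := G.oth z h1 ⟨zi, hz1, zj, hz2⟩
    obtain ⟨x, hx⟩ : (X c).Nonempty := Finset.card_pos.1 (by have := g.two; omega)
    obtain ⟨τ, φ, r1, o1, t1, md, φH, φm⟩ :=
      dbl_wildR hC T hmid h1 h2 h5 h7 S e1 e2 T' hx (XH x hx)
    obtain ⟨f1, f2, f3⟩ := lτ τ x r1 t1 md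
    by_cases oτ : Out m i j τ
    · obtain ⟨mτ, lτ1⟩ := G.oth τ r1 oτ
      obtain ⟨σ', m', s1, c1, c2⟩ := fin hs hC.hl G.st (F c) (a := e c) (τ := τ) (ζ := z)
        (P0 := []) ha (hX x hx) (r1 c) (by rw [G.ma]; exact oτ.2.1)
        ⟨h1 c, by rw [G.ma]; exact hz1, o1.1.symm,
          by rw [mτ]; exact fun h => o1.2.1 (by rw [h, hm.inv])⟩
        G.la miF (lτ1.trans f1) f2 f3 (Or.inr (by simp)) (lz1.trans lz) mzF φm
        ((g'.adja φ).2 (Or.inr φH))
      exact ⟨σ', m', s1, c1, (c1 _ _ hz).trans c2⟩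
    · have off : ¬ On σ1 x := by
        intro hon
        obtain ⟨u, -, ou, hu⟩ := T.f1_X hs L G hx hon
        rcases T.st.line_disj (i := τ) (by rw [f1]; simp) hu with h | h
        · exact oτ (h ▸ ou)
        · have := ou.par hm
          rw [h, hm.inv] at this
          exact oτ this
      obtain ⟨σ', m', s1, c1, c2⟩ := v2 hs hC.hl G.st (F c) (a := e c) (τ := z) (P := [])
        ha (hX x hx) (h1 c) (by rw [G.ma]; exact hz1) G.la miF (lz1.trans lz) zF mzF (Or.inl off)
      exact ⟨σ', m', s1, c1, (c1 _ _ hz).trans c2⟩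
  push Not at zi
  subst zi
  have ch := L.ch
  have li := G.li
  rw [hPi rfl] at ch li
  have hq : q = [] := by
    cases q with
    | nil => rfl
    | cons b q =>
      exfalso
      have eb : E (t z) b := (List.isChain_cons_cons.1 (by simpa using ch)).1
      refine (L.free b (by simp)).1 ?_
      rcases (g'.adja b).1 eb with h | h
      · exact FOn b (YF b h)
      · obtain ⟨u, hu, hbu⟩ := T'.Fon c b h
        obtain ⟨a1, a2⟩ := dbl_rl e1 e2 hu
        exact (T.sw_on hs h1 h2 S a1 a2 hbu).1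
  subst hq
  have chj : Pj.IsChain E := (chain_rev_iff hs).1 (chain_right ch)
  have ψH : ψ ∈ H c := by
    rw [hPj] at ch
    have eψ : E (t z) ψ := (List.isChain_cons_cons.1 (by simpa using ch)).1
    exact ((g'.adja ψ).1 eψ).resolve_left fun h => (jav ψ (by rw [hPj]; simp)).1 (YF ψ h)
  obtain ⟨y, hy⟩ : (Y c).Nonempty := Finset.card_pos.1 (by have := g'.two; omega)
  have yF' : y ∉ F (!c) := by
    intro h
    have b1 := ((T.gad (!c)).adja _).2 (Or.inr h)
    rcases ((g'.adjX y hy _).1 (hs _ _ b1)).2 with h' | h' | h'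
    · exact g'.nt _ h' _ rfl
    · rcases ((T.gad (!c)).adja _).1 (hs _ _ ((g'.adja _).2 (Or.inr h'))) with h'' | h''
      · exact (T.gad (!c)).nt _ h'' _ rfl
      · exact zF' h''
    · exact h1 (!c) (hC.tinj h').symm
  obtain ⟨u, ru, tu0, yu⟩ := T.F_on hs (YF y hy)
  have tu : ty u = some c := dbl_some tu0 fun h0 => yF' (yu ▸ (T.sgl u ru h0).2.2 _)
  have uz : u ≠ z := fun h => g'.nt y hy z (by rw [yu, h, gz])
  have glue : ∀ B : List V, (y :: B).IsChain E → (Pj.reverse.reverse ++ [] ++ y :: B).IsChain E :=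
    fun B hB => by
      rw [hPj] at chj
      have := chain_edge chj (hs _ _ (hYH y hy ψ ψH)) hB
      rw [hPj]; simpa using this
  by_cases um : u = m z
  · obtain ⟨m', hx⟩ := xch_exists hm1 (a := z) (b := e c) (h1 c) (by rw [G.mi]; exact L.rj c)
    obtain ⟨σ', s1, -⟩ := G.st.exch0 hs hx (P1 := [t z]) (M1 := []) (Q1 := Pj.reverse)
      (P2 := [t (e c)]) (M2 := []) (Q2 := gate (m z) :: (pre (m z)).reverse) (c1 := []) (c2 := [])
      li (by rw [G.la]; simp) (by simp) (by simpa using L.nj) (by simp) (by simp)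
      (by simp) (by simp) (by simpa using hs _ _ (ha _ zF))
      (by
        have a1 := (List.isChain_cons_cons.1 chla).2
        rw [← um, ← yu] at a1 ⊢
        exact glue _ a1)
    exact ⟨σ', m', s1, (hx.diff hC.hl hm1 hsp).2, cc.of_eq hx.ha⟩
  obtain ⟨mu, lu1⟩ := G.oth u ru ⟨uz, um, (tyj u tu).1, (tyj u tu).2⟩
  obtain ⟨lu, -, -, -, mdu⟩ := T.dbl u c ru tu
  rw [← yu] at lu
  have muF : gate (m u) ∈ F c := (T.dbl (m u) c (T.rl_m ru) (by rw [T.tym, tu])).2.1
  have chu := T.chain ru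
  have zn : ∀ w ∈ line σ m u, E y w → E (t z) w := fun w hw ew => by
    rcases ((g'.adjX y hy w).1 ew).2 with h | h | h
    · exact (g'.adja w).2 (Or.inl h)
    · exact (g'.adja w).2 (Or.inr h)
    · rcases T.st.t_mem_line.1 (h ▸ hw) with h' | h'
      · exact absurd h'.symm uz
      · exact absurd (by rw [h', hm.inv]) um
  have pu : pre u ≠ [] := by
    intro h
    obtain ⟨r, hr⟩ := T.st.line_cons u
    rw [lu, h] at hr
    exact g'.nt y hy u (List.cons.inj hr).1
  obtain ⟨pu', w, hpu⟩ : ∃ pu' w, pre u = pu' ++ [w] :=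
    ⟨_, _, (List.dropLast_append_getLast pu).symm⟩
  rw [lu] at chu
  obtain ⟨chl, chr⟩ := List.isChain_split.1 chu
  obtain ⟨w', r', e0, ew', chw'⟩ := dbl_head chr
  obtain ⟨x, hx, xu⟩ : ∃ x ∈ X c, x ∉ mid u := by
    by_contra hcon
    push Not at hcon
    have a1 : (X c).card ≤ (mid u).toFinset.card :=
      Finset.card_le_card fun x hx => List.mem_toFinset.2 (hcon x hx)
    have a2 := List.toFinset_card_le (mid u)
    have a3 := hmid u c ru tu
    have a4 := g.two
    omega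
  obtain ⟨τ, φ, r1, o1, t1, md, φH, φm⟩ :=
    dbl_wildR hC T hmid h1 h2 h5 h7 S e1 e2 T' hx (XH x hx)
  obtain ⟨f1, f2, f3⟩ := lτ τ x r1 t1 md
  have τu : τ ≠ u := fun h => xu (by rw [← h, md]; simp)
  have τmu : τ ≠ m u := fun h => xu (by rw [← List.mem_reverse, ← mdu, ← h, md]; simp)
  obtain ⟨mτ, lτ1⟩ := G.oth τ r1 ⟨o1.1, o1.2.1, (tyj τ t1).1, (tyj τ t1).2⟩
  have oτ : Out m1 z u τ := ⟨o1.1, by rw [G.mi]; exact (tyj τ t1).1, τu, by rw [mu]; exact τmu⟩
  have oa : Out m1 z u (e c) := ⟨(h1 c).symm, by rw [G.mi]; exact (L.rj c).symm, (ru c).symm,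
    by rw [mu]; exact (T.rl_m ru c).symm⟩
  have sw : ∀ v, Out m1 z u v → Out m1 z (m1 u) v := fun v o =>
    ⟨o.1, o.2.1, o.2.2.2, by rw [hm1.inv]; exact o.2.2.1⟩
  obtain ⟨mB, hB⟩ := xch_exists hm1 (a := z) (b := u) uz.symm
    (by rw [G.mi]; exact (tyj u tu).1.symm)
  obtain ⟨mA, hA⟩ := xch_exists hm1 (a := z) (b := m1 u)
    (by rw [mu]; exact fun h => um (by rw [h, hm.inv]))
    (by rw [G.mi, mu]; exact fun h => (tyj u tu).2 (by rw [h, hm.inv]))
  rcases hB.any hC.hl hm1 hA with hc | hc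
  · have co := hB.co hm1 hc
    obtain ⟨σ', s1, -, s3, s4⟩ := G.st.exch0 hs hB (P1 := [t z]) (M1 := []) (Q1 := Pj.reverse)
      (P2 := pre u) (M2 := []) (Q2 := y :: (mid u ++ gate (m u) :: (pre (m u)).reverse))
      (c1 := []) (c2 := []) li (by rw [lu1, lu]; simp) (by simp) (by simpa using L.nj) pu
      (by simp) (by simp) (by simp)
      (by
        rw [hpu] at chl ⊢
        have a1 : E w y := chain_adj (A := pu') (B := []) (by simpa using chl)
        have a2 := zn w (by rw [lu, hpu]; simp) (hs _ _ a1)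
        have a3 := chain_rev hs (chain_left chl)
        simpa using List.isChain_cons_cons.2 ⟨a2, by simpa using a3⟩)
      (glue _ chr)
    rw [G.mi] at s3
    obtain ⟨σ'', m'', s5, c1, c2⟩ := fin hs hC.hl s1 (F c) (a := e c) (τ := τ) (ζ := j)
      (P0 := Pj) (y := y) (M0 := mid u) (Q0 := (pre (m u)).reverse) ha (hX x hx) (r1 c)
      (by rw [hB.oth _ oa, G.ma]; exact o1.2.1)
      ⟨L.rj c, by rw [hB.oth _ oa, G.ma]; exact G.jm, (tyj τ t1).1.symm,
        by rw [hB.oth _ oτ, mτ]; exact (tyj (m τ) (by rw [T.tym, t1])).1.symm⟩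
      ((s4 _ oa).2.trans G.la) miF ((s4 _ oτ).2.trans (lτ1.trans f1)) f2 f3 (Or.inr (by simp))
      (by rw [s3]; simp) muF φm (hYH y hy φ φH)
    exact ⟨σ'', m'', s5, co.trans c1, (co.trans c1 _ _ (cc.of_eq G.mi)).trans c2⟩
  · have co := hA.co hm1 hc
    obtain ⟨σ', s1, s2, -, s4⟩ := G.st.exch0 hs hA (P1 := [t z]) (M1 := []) (Q1 := Pj.reverse)
      (P2 := (mid u ++ gate (m u) :: (pre (m u)).reverse).reverse) (M2 := [])
      (Q2 := y :: (pre u).reverse) (c1 := []) (c2 := []) li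
      (by rw [line_rev hm1, lu1, lu]; simp) (by simp) (by simpa using L.nj) (by simp)
      (by simp) (by simp) (by simp)
      (by
        rw [List.reverse_reverse, e0]
        have a2 := zn w' (by rw [lu, e0]; simp) ew'
        simpa using List.isChain_cons_cons.2 ⟨a2, chw'⟩)
      (glue _ (by simpa using chain_rev hs chl))
    obtain ⟨σ'', m'', s5, c1, c2⟩ := fin hs hC.hl s1 (F c) (a := e c) (τ := τ) (ζ := z)
      (P0 := []) (y := t z) (M0 := mid u) (Q0 := (pre (m u)).reverse) ha (hX x hx) (r1 c)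
      (by rw [hA.oth _ (sw _ oa), G.ma]; exact o1.2.1)
      ⟨h1 c, by rw [hA.oth _ (sw _ oa), G.ma]; exact hz1, o1.1.symm,
        by rw [hA.oth _ (sw _ oτ), mτ]; exact fun h => o1.2.1 (by rw [h, hm.inv])⟩
      ((s4 _ (sw _ oa)).2.trans G.la) miF ((s4 _ (sw _ oτ)).2.trans (lτ1.trans f1)) f2 f3
      (Or.inr (by simp)) (by rw [s2]; simp) muF φm ((g'.adja φ).2 (Or.inr φH))
    exact ⟨σ'', m'', s5, co.trans c1, c2⟩

end DblCaseS

end Pool.Agent.P.MP_4197d5_co
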