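import Pool.Agent.P.MP_4197d5_co.R.TS
import Pool.Agent.P.MP_4197d5_co.R.CS

/-! The main theorem in the abstract setting. -/

namespace Pool.Agent.P.MP_4197d5_co

open Classical

set_option linter.unusedSectionVars false

section SecondS

variable {V ι : Type} [Fintype ι] [Fintype V] {E : V → V → Prop} {t : ι → V} {l : ι → ι} {k : ℕ}
  {σ : ι → List V} {m : ι → ι} {C : Finset ι} {col : ι → Bool} {k1 k2 : ℕ} {Γ : Finset V}
  {M : Set V} {D : Bool → Finset ι} {X : Bool → Finset V} {pre mid : ι → List V} {gate : ι → V}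
  {c : Bool} {τ si sj : ι} {σ3 : ι → List V} {m3 : ι → ι} {c0 : ι}

/-- Apply `St.pc` to `σ3` with `e false = m si`, `e true = m sj`, `N` the indices of `C` outside
the pairs of `si, sj` (`|N| = 2 k1 - 4`), `O = M \ On σ3`, `Src = M`. The first alternative gives
`Imp` by `q_co`, the second by `q_ev2`, and so does the first alternative of `theta`. Otherwise
let `Fr b` be the members of `A b` on lines in `N` that are not `Btw`;
`|Fr false| + |Fr true| ≤ |N|` (`St.fr_count`). `X' b ⊆ M`, and by `n1`, `N1`, `N2`, `Mon`, `Xd`,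
`QF.on` the neighbours of `{t (e b)} ∪ X' b` lie in this set or in
`Fr b ∪ {t si, t sj} ∪ Γ`, or (only for `t (e b)`) in `nbD`. If `X' b` has a member other than
`t (e b)`, `Cx.hk_nt` gives `k ≤ |Fr b| + 2 + |Γ| + 1`; otherwise `Cx.deg_t` gives
`k ≤ |Fr b| + 2 + |Γ| + |nbD|`. With `|Γ| + |D| ≤ k2`, `2 ≤ |D|` and `theta` this is absurd. -/
theorem secondR (hC : Cx E t l k) (hc0 : C = cl l m ∅ c0)
    (hmin : ∀ x, (cl l m ∅ c0).card ≤ (cl l m ∅ x).card)
    (S : CS E t l k σ m C col k1 k2 Γ M D X pre mid gate)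
    (Q : QF E t σ m C col D X c τ si sj σ3 m3) : Imp E t l m ∅ := by
  have hm := S.st.hm
  have hm3 := Q.st.hm
  have hcc : ∀ x, x ∈ C ↔ cc l m ∅ c0 x := fun x => by rw [hc0, mem_cl]
  have hτC : τ ∉ C := S.DC c τ Q.hτ
  have hmτC : m τ ∉ C := S.DC c _ (S.Dm c τ Q.hτ)
  have hCm : ∀ x ∈ C, m x ∈ C := fun x hx => (S.hC x hx _).2 (cc.stm0 x)
  have alt1 : (∃ σ' m', St E t σ' m' ∅ ∧ Co l m3 m') → Imp E t l m ∅ := by
    rintro ⟨σ', m', h1, h2⟩
    exact ⟨σ', m', ∅, h1, Or.inl rfl, q_co hC.hl hm hm3 S.coll S.colm (fun h => hτC ((hcc _).2 h))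
      ((hcc _).1 Q.hi) ((hcc _).1 Q.hj) Q.ne (Q.ci.trans Q.cj.symm) Q.m1 Q.m2 Q.m3'
      (fun u a b c => (Q.oth u a b c).1) h2⟩
  obtain ⟨e, e0, e1⟩ : ∃ e : Bool → ι, e false = m si ∧ e true = m sj :=
    ⟨fun b => cond b (m sj) (m si), rfl, rfl⟩
  obtain ⟨N, hN⟩ : ∃ N : Finset ι, ∀ u, u ∈ N ↔ u ∈ C ∧ Out m si sj u :=
    ⟨C.filter (Out m si sj), fun u => Finset.mem_filter⟩
  have hoth : ∀ u ∈ N, m3 u = m u ∧ line σ3 m3 u = line σ m u := fun u hu =>
    Q.oth u (fun h => hτC (h ▸ ((hN u).1 hu).1)) (fun h => hmτC (h ▸ ((hN u).1 hu).1))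
      ((hN u).1 hu).2
  have hNm : ∀ u ∈ N, m3 u ∈ N := fun u hu => by
    rw [(hoth u hu).1]
    exact (hN _).2 ⟨hCm u ((hN u).1 hu).1, ((hN u).1 hu).2.par hm⟩
  have st3 : St E t σ3 m3 {e false, e true} := by rw [e0, e1]; exact Q.st
  have me : ∀ b, m3 (e b) = e (!b) := by
    rintro (_ | _)
    · rw [Bool.not_false, e0, e1]; exact Q.m3'
    · rw [Bool.not_true, e0, e1, ← Q.m3', hm3.inv]
  have triv : ∀ b, σ3 (e b) = [t (e b)] := by
    rintro (_ | _)
    · rw [e0]; exact Q.s1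
    · rw [e1]; exact Q.s2
  have hRl : ∀ u ∈ N, Rl e u := by
    rintro u hu (_ | _)
    · rw [e0]; exact ((hN u).1 hu).2.2.1
    · rw [e1]; exact ((hN u).1 hu).2.2.2.2
  rcases st3.pc hC.symm hC.hl me triv N hRl hNm {v | v ∈ M ∧ ¬ On σ3 v} M (fun o ho => ho.2) with
    h | ⟨ρ, hρ, m0, σ', m', hx, h1, h2⟩ | ⟨A, X', hne⟩
  · exact alt1 h
  · rw [e0] at hx
    exact ⟨σ', m', ∅, h1, Or.inl rfl, q_ev2 hC.hl hm hm3 hmin (fun h => hτC ((hcc _).2 h))
      ((hcc _).1 Q.hi) ((hcc _).1 Q.hj) Q.m1 Q.m2 Q.m3' (fun u a b c => (Q.oth u a b c).1)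
      ((hcc _).1 ((hN ρ).1 hρ).1) ((hN ρ).1 hρ).2 hx h2⟩
  rcases thetaR hC.toCb S Q with h | ⟨t1, t2, t3⟩
  · exact alt1 h
  exfalso
  obtain ⟨Fr, hFr⟩ : ∃ Fr : Bool → Finset V, ∀ b v, v ∈ Fr b ↔
      v ∈ A b ∧ ∃ u ∈ N, v ∈ line σ3 m3 u ∧ ¬ Btw (line σ3 m3 u) (A b) v :=
    ⟨fun b => Finset.univ.filter fun v =>
      v ∈ A b ∧ ∃ u ∈ N, v ∈ line σ3 m3 u ∧ ¬ Btw (line σ3 m3 u) (A b) v, fun b v => by simp⟩
  have hF := (st3.fr_count N hNm A Fr (fun b v hv => (hFr b v).1 hv) hne.n5).1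
  have hCc : C.card = 2 * k1 := by
    have h1 := Finset.card_filter_add_card_filter_not (s := C) (fun d => col d = false)
    have h2 := S.k1c true
    have h3 := S.k1c false
    simp only [Bool.not_eq_false] at h1
    omega
  have hNc : N.card + 4 ≤ 2 * k1 := by
    have ci' : col (m si) = !c := by rw [S.colm, Q.ci]
    have cj' : col (m sj) = !c := by rw [S.colm, Q.cj]
    have n1 : si ≠ m si := (hm.fpf si).symm
    have n2 : si ≠ m sj := fun h => by have := Q.ci; rw [h, cj'] at this; simp at this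
    have n3 : m si ≠ sj := fun h => by have := Q.cj; rw [← h, ci'] at this; simp at this
    have n4 : m si ≠ m sj := fun h => Q.ne (hm.inj h)
    have n5 : sj ≠ m sj := (hm.fpf sj).symm
    have h4 : ({si, m si, sj, m sj} : Finset ι).card = 4 := by
      rw [Finset.card_insert_of_notMem (by simp [n1, n2, Q.ne]),
        Finset.card_insert_of_notMem (by simp [n3, n4]), Finset.card_pair n5]
    have hd : Disjoint N {si, m si, sj, m sj} := by
      rw [Finset.disjoint_left]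
      intro u hu hu'
      have := ((hN u).1 hu).2
      simp only [Finset.mem_insert, Finset.mem_singleton] at hu'
      unfold Out at this
      tauto
    rw [← h4, ← Finset.card_union_of_disjoint hd, ← hCc]
    refine Finset.card_le_card fun u hu => ?_
    simp only [Finset.mem_union, Finset.mem_insert, Finset.mem_singleton] at hu
    rcases hu with hu | rfl | rfl | rfl | rfl
    · exact ((hN u).1 hu).1
    · exact Q.hi
    · exact hCm _ Q.hi
    · exact Q.hj
    · exact hCm _ Q.hj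
  have XM : ∀ b, ∀ x ∈ X' b, x ∈ M := fun b x hx => (hne.n2 b x hx).elim (fun h => h.1) fun h => h.1
  have com : ∀ b v, v ∈ A b → ¬ (v ∈ M ∧ ¬ On σ3 v) → (v ∈ M ∨ ∃ d ∈ C, v = t d) →
      v ∈ X' b ∨ v ∈ Fr b ∨ v = t si ∨ v = t sj ∨ v = t (e b) := by
    intro b v hA hO hv
    rcases hv with hv | ⟨d, hd, rfl⟩
    · have hon : On σ3 v := by
        by_contra h
        exact hO ⟨hv, h⟩
      rcases Q.on v hon with h | ⟨i, h⟩ | ⟨u, hu, h⟩
      · exact absurd hv (S.Xd c v h).2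
      · exact absurd h (S.Mnt v hv i)
      · have huN : u ∈ N := (hN u).2 ⟨S.Mon v hv u h, hu⟩
        rw [← (hoth u huN).2] at h
        by_cases hb : Btw (line σ3 m3 u) (A b) v
        · exact Or.inl (hne.n3 b v hv u huN hb)
        · exact Or.inr (Or.inl ((hFr b v).2 ⟨hA, u, huN, h, hb⟩))
    · by_cases ho : Out m si sj d
      · have hdN : d ∈ N := (hN d).2 ⟨hd, ho⟩
        exact Or.inr (Or.inl ((hFr b _).2 ⟨hA, d, hdN, st3.t_mem_line.2 (Or.inl rfl),
          fun hb => st3.btw_nt hb d rfl⟩))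
      · have n4 := hne.n4 b
        rcases Out.cases ho with rfl | rfl | rfl | rfl
        · simp
        · cases b
          · simp [e0]
          · rw [Bool.not_true, e0] at n4; exact absurd hA n4
        · simp
        · cases b
          · rw [Bool.not_false, e1] at n4; exact absurd hA n4
          · simp [e1]
  have heC : ∀ b, e b ∈ C ∧ col (e b) = !c := by
    rintro (_ | _)
    · rw [e0, S.colm, Q.ci]; exact ⟨hCm _ Q.hi, rfl⟩
    · rw [e1, S.colm, Q.cj]; exact ⟨hCm _ Q.hj, rfl⟩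
  have key : ∀ b, k ≤ (Fr b).card + Γ.card + 3 ∨
      k ≤ (Fr b).card + Γ.card + 2 + (nbD E (D (!c)) (X (!c)) gate (t (e b))).card := by
    intro b
    by_cases hx : ∃ x, x ∈ X' b
    · left
      obtain ⟨x, hx⟩ := hx
      refine (hC.hk_nt (X' b) (Fr b ∪ Γ ∪ {t si, t sj, t (e b)}) x hx
        (fun y hy => S.Mnt y (XM b y hy)) fun y hy w hw => ?_).trans ?_
      · simp only [Finset.mem_union, Finset.mem_insert, Finset.mem_singleton]
        rcases hne.n1 b y w (Or.inr hy) hw with h | h | ⟨h1, h2⟩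
        · tauto
        · tauto
        · rcases S.N1 y (XM b y hy) w hw with h | h | h
          · have := com b w h1 h2 (Or.inl h); tauto
          · tauto
          · have := com b w h1 h2 (Or.inr h); tauto
      · refine (Finset.card_union_le _ _).trans (add_le_add (Finset.card_union_le _ _) ?_)
        exact Finset.card_le_three
    · right
      refine (hC.deg_t (e b) (Fr b ∪ Γ ∪ {t si, t sj} ∪ nbD E (D (!c)) (X (!c)) gate (t (e b)))
        fun w hw => ?_).trans ?_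
      · have hirr : w ≠ t (e b) := fun h => hC.irr _ (h ▸ hw)
        have hnx : w ∉ X' b := fun h => hx ⟨w, h⟩
        simp only [Finset.mem_union, Finset.mem_insert, Finset.mem_singleton, nbD,
          Finset.mem_filter, Finset.mem_image]
        rcases hne.n1 b _ w (Or.inl rfl) hw with h | h | ⟨h1, h2⟩
        · exact absurd h hirr
        · exact absurd h hnx
        · rcases S.N2 (e b) (heC b).1 w hw with h | h | h | h | ⟨u, hu, h⟩
          · have := com b w h1 h2 (Or.inl h); tauto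
          · tauto
          · have := com b w h1 h2 (Or.inr h); tauto
          · rw [(heC b).2] at h; exact Or.inr ⟨Or.inl h, hw⟩
          · rw [(heC b).2] at hu; exact Or.inr ⟨Or.inr ⟨u, hu, h.symm⟩, hw⟩
      · refine (Finset.card_union_le _ _).trans (Nat.add_le_add_right ?_ _)
        refine (Finset.card_union_le _ _).trans (add_le_add (Finset.card_union_le _ _) ?_)
        exact Finset.card_le_two
  have k0 := key false
  have k1' := key true
  rw [e0] at k0
  rw [e1] at k1'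
  have g1 := S.Gcard (!c)
  have g2 := S.two_le (!c)
  have g3 := S.hk
  omega

end SecondS

section StepCS

variable {V ι : Type} [Fintype ι] [Fintype V] {E : V → V → Prop} {t : ι → V} {l : ι → ι} {k : ℕ}
  {σ : ι → List V} {m : ι → ι}

theorem stepCR (hC : Cx E t l k) (H1 : Sep E t l k (OneE t l)) (hM : EMax E t l)
    (hn : ¬ Sol E t l) (h : St E t σ m ∅) : Imp E t l m ∅ := by
  by_contra hopt
  haveI : Nonempty ι := Fintype.card_pos_iff.1 (by rw [hC.card]; have := hC.kpos; omega)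
  obtain ⟨c, -, hmin⟩ := Finset.exists_min_image Finset.univ (fun x => (cl l m ∅ x).card)
    Finset.univ_nonempty
  have hmin' : ∀ x, (cl l m ∅ c).card ≤ (cl l m ∅ x).card := fun x => hmin x (Finset.mem_univ x)
  have hp : ∃ p, ¬ cc l m ∅ c p := by
    by_contra hc
    push Not at hc
    exact hn ⟨σ, m, h, fun x y => (hc x).symm.trans (hc y)⟩
  obtain ⟨col, c1, c2⟩ := exists_col hC.hl h.hm
  obtain ⟨Cls, s, A, X, S⟩ := ds_exists hC.symm hC.hl h hmin' c1 c2 hopt
  obtain ⟨k1, k2, Γ, M, D, X', pre, mid, gate, S'⟩ := cs_existsR hC H1 hM hn h hmin' hp c1 c2 S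
  have h1 : 1 ≤ k1 := by
    rw [← S'.k1c (col c)]
    exact Finset.card_pos.2 ⟨c, by simp [cc.refl]⟩
  rcases Nat.eq_or_lt_of_le h1 with h1 | h1
  · exact S'.k1_oneR hC h1.symm
  obtain ⟨b, τ, hτ, si, hi, sj, hj, hne, ci, cj, q1, q2, a1, a2, a3, a4⟩ := S'.qdataR hC h1
  obtain ⟨σ3, m3, Q⟩ := S'.qfam hC.symm hτ hi hj hne ci cj a1 a2 a3 a4
  exact hopt (secondR hC rfl hmin' S' Q)

end StepCS

section MainS

variable {V ι : Type} [Fintype ι] [Fintype V] {t : ι → V} {l : ι → ι} {k : ℕ}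

theorem sol_of_maxR {E : V → V → Prop} (hC : Cx E t l k) (H1 : Sep E t l k (OneE t l))
    (hM : EMax E t l) : Sol E t l := by
  by_contra hn
  obtain ⟨σ0, m0, U0, h0⟩ := init_famR hC.toCb hM hn
  let P : ℕ → Prop := fun n => ∃ σ m U, (St E t σ m U ∧ Sm m U) ∧ Phi l m U = n
  have hb : ∀ m U, Phi l m U ≤ Fintype.card ι * 3 ^ Fintype.card ι := fun m U => by
    refine (Finset.sum_le_card_nsmul _ _ (3 ^ Fintype.card ι) fun x _ => ?_).trans ?_
    · exact Nat.pow_le_pow_right (by norm_num) (Finset.card_le_univ _)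
    · exact Nat.mul_le_mul_right _ (Finset.card_le_univ _)
  have hP : P (Nat.findGreatest P (Fintype.card ι * 3 ^ Fintype.card ι)) :=
    Nat.findGreatest_spec (m := Phi l m0 U0) (hb _ _) ⟨σ0, m0, U0, h0, rfl⟩
  obtain ⟨σ1, m, U, ⟨h1, hsm⟩, hphi⟩ := hP
  have hopt : ¬ Imp E t l m U := by
    rintro ⟨σ', m', U', a1, a2, a3⟩
    have := Nat.le_findGreatest (P := P) (hb m' U') ⟨σ', m', U', ⟨a1, a2⟩, rfl⟩
    omega
  rcases hsm with rfl | ⟨a, rfl⟩
  · exact hopt (stepCR hC H1 hM hn h1)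
  have hex : ∃ n, ∃ σ, St E t σ m {a, m a} ∧ len σ = n := ⟨_, σ1, h1, rfl⟩
  obtain ⟨σ, h, hlen⟩ := Nat.find_spec hex
  exact stepPR hC H1 hM hn h hopt fun σ' h' => hlen ▸ Nat.find_min' hex ⟨σ', h', rfl⟩

theorem sol_of_ctxR (n : ℕ) : ∀ E : V → V → Prop, Cx E t l k → Sep E t l k (OneE t l) →
    (Finset.univ.filter fun p : V × V => ¬ E p.1 p.2).card = n → Sol E t l := by
  induction n using Nat.strong_induction_on with
  | _ n ih =>
    intro E hC H1 hn
    refine sol_of_maxR hC H1 fun x v h1 h2 h3 => ih _ ?_ _ (hC.add h1 h3) (H1.add x v) rfl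
    rw [← hn]
    refine Finset.card_lt_card ⟨fun p hp => ?_, fun hsub => ?_⟩
    · simp only [Finset.mem_filter, Finset.mem_univ, true_and] at hp ⊢
      exact fun h => hp (Or.inl h)
    · have := hsub (x := (x, v)) (by simpa using h2)
      simp [addE] at this

end MainS

end Pool.Agent.P.MP_4197d5_co
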