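import Pool.Agent.P.MP_4197d5_co.R.Fin

/-! From graphs to the standing hypotheses, and the parity of cuts. -/

namespace Pool.Agent.P.MP_4197d5_co

open Classical

set_option linter.unusedSectionVars false

/-- the edge cut of a vertex set: the edges with exactly one end in `Y` -/
def cutOf {V : Type} (G : SimpleGraph V) (Y : Set V) : Set (Sym2 V) :=
  {e | e ∈ G.edgeSet ∧ ∃ x ∈ Y, ∃ y ∉ Y, e = s(x, y)}

theorem mem_cutOf {V : Type} {G : SimpleGraph V} {Y : Set V} {a b : V} :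
    s(a, b) ∈ cutOf G Y ↔ G.Adj a b ∧ ¬ (a ∈ Y ↔ b ∈ Y) := by
  refine and_congr Iff.rfl ⟨?_, fun h => ?_⟩
  · rintro ⟨x, hx, y, hy, e⟩
    rcases Sym2.eq_iff.1 e with ⟨rfl, rfl⟩ | ⟨rfl, rfl⟩ <;> tauto
  · by_cases ha : a ∈ Y
    · exact ⟨a, ha, b, by tauto, rfl⟩
    · exact ⟨b, by tauto, a, ha, Sym2.eq_swap⟩

/-- a walk crosses a cut an even number of times iff its ends are on the same side -/
theorem walk_par {V : Type} {G : SimpleGraph V} (Y : Set V) {u v : V} (p : G.Walk u v) :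
    Even (p.edges.countP fun e => e ∈ cutOf G Y) ↔ (u ∈ Y ↔ v ∈ Y) := by
  induction p with
  | nil => simp
  | @cons a b c h p ih =>
    rw [SimpleGraph.Walk.edges_cons, List.countP_cons]
    by_cases hc : s(a, b) ∈ cutOf G Y
    · rw [if_pos (by simpa using hc), Nat.even_add_one, ih]
      have := (mem_cutOf.1 hc).2
      tauto
    · rw [if_neg (by simpa using hc), add_zero, ih]
      have : a ∈ Y ↔ b ∈ Y := by
        by_contra h'
        exact hc (mem_cutOf.2 ⟨h, h'⟩)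
      tauto

/-- a cut contained in a cycle is even -/
theorem cut_even {V : Type} {G : SimpleGraph V} (Y : Set V) {v : V} (p : G.Walk v v)
    (hp : p.IsCycle) (h : ∀ e ∈ cutOf G Y, e ∈ p.edges) : Even (cutOf G Y).ncard := by
  have h1 := (walk_par Y p).2 Iff.rfl
  have h2 : cutOf G Y = ↑(p.edges.filter fun e => e ∈ cutOf G Y).toFinset := by
    ext e
    simp only [List.coe_toFinset, List.mem_filter, decide_eq_true_eq, Set.mem_ofPred_eq]
    exact ⟨fun a => ⟨h e a, a⟩, fun a => a.2⟩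
  rw [h2, Set.ncard_coe_finset, List.toFinset_card_of_nodup (hp.edges_nodup.filter _),
    ← List.countP_eq_length_filter]
  exact h1

theorem reach_closed {W : Type} {H : SimpleGraph W} (Y : Set W) {y v : W} (h : H.Reachable y v)
    (hy : y ∈ Y) (hc : ∀ x ∈ Y, ∀ w, H.Adj x w → w ∈ Y) : v ∈ Y := by
  obtain ⟨p⟩ := h
  induction p with
  | nil => exact hy
  | cons e _ ih => exact ih (hc _ hy _ e)

theorem rel_cycle {V : Type} [Fintype V] (G : SimpleGraph V) (M : Finset (Sym2 V))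
    (h1 : M.Nonempty) (h5 : (↑M : Set (Sym2 V)) ⊆ G.edgeSet)
    (h7 : ∀ e ∈ M, ∀ f ∈ M, e ≠ f → ∀ x ∈ e, x ∉ f)
    (h3 : ∀ S : Finset V, S.card < M.card → ∀ x y : ↥((↑S : Set V)ᶜ),
      ¬ (G.induce ((↑S : Set V)ᶜ)).Reachable x y →
        ∃ e ∈ M, ∃ f ∈ M, e ≠ f ∧ ∀ z, z ∈ e ∨ z ∈ f →
          ∃ h : z ∈ (↑S : Set V)ᶜ, (G.induce ((↑S : Set V)ᶜ)).Reachable x ⟨z, h⟩)
    (h4 : ∀ e ∈ M, ∀ u ∈ e, ∀ v, v = u ∨ G.Adj v u → M.card + 1 ≤ (G.neighborSet v).ncard)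
    (h6 : ∀ Y : Set V, cutOf G Y ⊆ ↑M → Even (cutOf G Y).ncard) :
    ∃ (v : V) (p : G.Walk v v), p.IsCycle ∧ ∀ e ∈ M, e ∈ p.edges := by
  have huniq : ∀ e ∈ M, ∀ f ∈ M, ∀ x, x ∈ e → x ∈ f → e = f := by
    intro e he f hf x hx hx'
    by_contra hne
    exact h7 e he f hf hne x hx hx'
  have hex : ∀ i : {v // ∃ e ∈ M, v ∈ e}, ∃ j : {v // ∃ e ∈ M, v ∈ e}, s(i.1, j.1) ∈ M := by
    rintro ⟨v, e, he, hv⟩
    obtain ⟨w, rfl⟩ := Sym2.mem_iff_exists.1 hv
    exact ⟨⟨w, _, he, Sym2.mem_mk_right _ _⟩, he⟩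
  choose l hl using hex
  have hadj : ∀ i : {v // ∃ e ∈ M, v ∈ e}, G.Adj i.1 (l i).1 := fun i => h5 (hl i)
  have hlu : ∀ (i : {v // ∃ e ∈ M, v ∈ e}) (w : V), s(i.1, w) ∈ M → w = (l i).1 := by
    intro i w hw
    have := huniq _ hw _ (hl i) i.1 (Sym2.mem_mk_left _ _) (Sym2.mem_mk_left _ _)
    exact Sym2.congr_right.1 this
  have hPr : Pr l := by
    refine ⟨fun i => Subtype.ext (hlu (l i) i.1 ?_).symm, fun i e => (hadj i).ne ?_⟩
    · rw [Sym2.eq_swap]; exact hl i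
    · rw [e]
  have hM : ∀ e ∈ M, ∃ i : {v // ∃ e ∈ M, v ∈ e}, e = s(i.1, (l i).1) := by
    intro e he
    induction e using Sym2.ind with
    | _ a b =>
      refine ⟨⟨a, _, he, Sym2.mem_mk_left _ _⟩, ?_⟩
      rw [← hlu ⟨a, _, he, Sym2.mem_mk_left _ _⟩ b he]
  have hGA : ∀ v w, G.Adj v w →
      GA (fun x y => G.Adj x y ∧ s(x, y) ∉ M) (Subtype.val : {v // ∃ e ∈ M, v ∈ e} → V) l v w := by
    intro v w hvw
    by_cases hm : s(v, w) ∈ M
    · exact Or.inr ⟨⟨v, _, hm, Sym2.mem_mk_left _ _⟩, rfl,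
        hlu ⟨v, _, hm, Sym2.mem_mk_left _ _⟩ w hm⟩
    · exact Or.inl ⟨hvw, hm⟩
  have H1 : Sep (fun x y => G.Adj x y ∧ s(x, y) ∉ M) (Subtype.val : {v // ∃ e ∈ M, v ∈ e} → V) l
      M.card (OneE Subtype.val l) := by
    intro Y S y v hy hyS hv hvS hcl hP
    by_contra hlt
    have key : ∀ z : ↥((↑S : Set V)ᶜ), (G.induce ((↑S : Set V)ᶜ)).Reachable ⟨y, hyS⟩ z →
        z.1 ∈ Y := fun z hz =>
      reach_closed {x : ↥((↑S : Set V)ᶜ) | x.1 ∈ Y} hz hy fun x hx w hw =>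
        (hcl x.1 hx x.2 w.1 (hGA _ _ hw)).resolve_right w.2
    obtain ⟨e, he, f, hf, hne, hz⟩ := h3 S (not_le.1 hlt) ⟨y, hyS⟩ ⟨v, hvS⟩ fun h => hv (key _ h)
    obtain ⟨i, rfl⟩ := hM e he
    obtain ⟨j, rfl⟩ := hM f hf
    have hY : ∀ z, z ∈ s(i.1, (l i).1) ∨ z ∈ s(j.1, (l j).1) → z ∈ Y := fun z h => by
      obtain ⟨h', h''⟩ := hz z h
      exact key _ h''
    rcases hP i j (hY _ (Or.inl (Sym2.mem_mk_left _ _))) (hY _ (Or.inl (Sym2.mem_mk_right _ _)))
      (hY _ (Or.inr (Sym2.mem_mk_left _ _))) (hY _ (Or.inr (Sym2.mem_mk_right _ _))) with a | a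
    · exact hne (by rw [a])
    · exact hne (by rw [a, hPr.inv, Sym2.eq_swap])
  have hC : Cx (fun x y => G.Adj x y ∧ s(x, y) ∉ M) (Subtype.val : {v // ∃ e ∈ M, v ∈ e} → V) l
      M.card := by
    refine ⟨⟨?_, ?_, hPr, Subtype.val_injective, ?_, ?_, Finset.card_pos.2 h1⟩, ?_, ?_, ?_⟩
    · rintro x y ⟨h, h'⟩
      exact ⟨h.symm, by rwa [Sym2.eq_swap]⟩
    · exact fun x h => h.1.ne rfl
    · exact fun i h => h.2 (hl i)
    · rw [Fintype.card_subtype]
      have : (Finset.univ.filter fun v => ∃ e ∈ M, v ∈ e) = M.biUnion Sym2.toFinset := by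
        ext v; simp [Sym2.mem_toFinset]
      rw [this, Finset.card_biUnion, Finset.sum_const_nat (m := 2), mul_comm]
      · intro e he
        exact Sym2.card_toFinset_of_not_isDiag e (G.not_isDiag_of_mem_edgeSet (h5 he))
      · intro e he f hf hne
        refine Finset.disjoint_left.2 fun x hx hx' => ?_
        exact h7 e he f hf hne x (Sym2.mem_toFinset.1 hx) (Sym2.mem_toFinset.1 hx')
    · exact fun Y S y v a b c d e f => H1 Y S y v a b c d e fun i _ p q => absurd q (f i p)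
    · rintro v S ⟨i, hi⟩ hS
      refine (h4 _ (hl i) i.1 (Sym2.mem_mk_left _ _) v (hi.imp_right And.left)).trans ?_
      rw [← Set.ncard_coe_finset]
      exact Set.ncard_le_ncard (fun w hw => hS w (hGA _ _ hw)) S.finite_toSet
    · intro Y hcl
      have hsub : cutOf G Y ⊆ ↑M := by
        rintro e ⟨he, x, hx, y, hy, rfl⟩
        by_contra hm
        exact hy (hcl x hx y ⟨he, hm⟩)
      have a1 := h6 Y hsub
      have a2 := even_card hPr (Finset.univ.filter fun i => i.1 ∈ Y ∧ (l i).1 ∈ Y) fun i hi => by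
        rw [Finset.mem_filter] at hi ⊢
        exact ⟨Finset.mem_univ _, hi.2.2, by rw [hPr.inv]; exact hi.2.1⟩
      have a3 : cutOf G Y = ↑((Finset.univ.filter fun i => i.1 ∈ Y ∧ ¬ (l i).1 ∈ Y).image
          fun i => s(i.1, (l i).1)) := by
        ext e
        simp only [Finset.coe_image, Finset.coe_filter, Finset.mem_univ, true_and, Set.mem_image,
          Set.mem_ofPred_eq]
        constructor
        · intro he
          have hm := hsub he
          obtain ⟨-, x, hx, y, hy, rfl⟩ := he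
          have := hlu ⟨x, _, hm, Sym2.mem_mk_left _ _⟩ y hm
          exact ⟨⟨x, _, hm, Sym2.mem_mk_left _ _⟩, ⟨hx, this ▸ hy⟩, by rw [← this]⟩
        · rintro ⟨i, ⟨p, q⟩, rfl⟩
          exact ⟨hadj i, _, p, _, q, rfl⟩
      rw [a3, Set.ncard_coe_finset, Finset.card_image_of_injOn (fun i hi j hj e => by
        simp only [Finset.coe_filter, Finset.mem_univ, true_and, Set.mem_ofPred_eq] at hi hj
        rcases Sym2.eq_iff.1 e with a | a
        · exact Subtype.ext a.1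
        · exact absurd (a.1 ▸ hi.1) hj.2)] at a1
      have a4 := Finset.card_filter_add_card_filter_not
        (s := Finset.univ.filter fun i : {v // ∃ e ∈ M, v ∈ e} => i.1 ∈ Y) fun i => (l i).1 ∈ Y
      rw [Finset.filter_filter, Finset.filter_filter] at a4
      have a5 := a2.add a1
      rw [a4] at a5
      convert a5
  obtain ⟨e0, he0⟩ := h1
  obtain ⟨i0, -⟩ := hM e0 he0
  have : Nonempty {v // ∃ e ∈ M, v ∈ e} := ⟨i0⟩
  obtain ⟨v, p, hp, hq⟩ := sol_cycle G hC.symm hPr hC.noL (fun _ _ h => h.1) hadj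
    (sol_of_ctxR _ _ hC H1 rfl)
  refine ⟨v, p, hp, fun e he => ?_⟩
  obtain ⟨i, rfl⟩ := hM e he
  exact hq i

end Pool.Agent.P.MP_4197d5_co
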