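import Pool.Agent.P.MP_4197d5_co.R.Dbl
import Pool.Agent.P.MP_4197d5_co.R.HH

/-! An optimal system has no loose pair. -/

namespace Pool.Agent.P.MP_4197d5_co

open Classical

set_option linter.unusedSectionVars false

section TSxS

variable {V ι : Type} [Fintype ι] [Fintype V] {E : V → V → Prop} {t : ι → V} {l : ι → ι} {k : ℕ}
  {σ : ι → List V} {m : ι → ι} {e : Bool → ι} {X F : Bool → Finset V} {ty : ι → Option Bool}
  {pre mid : ι → List V} {gate : ι → V}

/-- Sketch. Apply `St.pc` with `N` all realized indices (`N.card = 2k - 2`), `O` all vertices off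
the system, `Src = univ`. The first two alternatives give `Imp` by `co_imp`, `xch_keep`. Otherwise
let `F c` be the members of `A c` on realized lines that are not `Btw`, and `X c` the finite set
of `NoEv` with `t (e c)` removed (it has no terminals: `St.btw_nt`). By `n1` the `E`-neighbours of
`{t (e c)} ∪ X c` lie in this set or in `F c`; `Cx.hk_one` gives `k ≤ |F c| + 1`, `St.fr_count`
gives equality, `t (l (e c)) ∉ F c` and the types of the lines. `lemI_ntR`, `lemI_tR`, `lemI_twoR`
with `Z = insert (t (e c)) (F c)` give the gadgets (`X c` is nonempty by `Cx.deg_t`).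
Use `St.gates` for `A false ∪ A true`; `ty u = some c` iff `u` realized and `Dbl (line u) (A c)`. -/
theorem ts_existsR (hC : Cx E t l k) (hM : EMax E t l) (hn : ¬ Sol E t l)
    (h : St E t σ m {e false, e true}) (me : ∀ c, m (e c) = e (!c))
    (triv : ∀ c, σ (e c) = [t (e c)]) (hopt : ¬ Imp E t l m {e false, e true}) :
    ∃ X F ty pre mid gate, TS E t k σ m e X F ty pre mid gate := by
  have hU : ({e false, e true} : Finset ι) = {e false, m (e false)} := by rw [me]; rfl
  have hRl : ∀ u, u ∉ ({e false, e true} : Finset ι) ↔ Rl e u := fun u => by simp [Rl]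
  have rlm : ∀ u, Rl e u → Rl e (m u) := fun u hu => (hRl _).1 (h.not_mem ((hRl _).2 hu))
  set N : Finset ι := Finset.univ.filter (Rl e) with hN
  have mN : ∀ u, u ∈ N ↔ Rl e u := fun u => by simp [hN]
  have hNm : ∀ u ∈ N, m u ∈ N := fun u hu => (mN _).2 (rlm u ((mN u).1 hu))
  have cN : N.card + 2 = 2 * k := by
    have h1 : N = ({e false, e true} : Finset ι)ᶜ := by
      ext u; rw [mN, Finset.mem_compl, hRl]
    have h2 : ({e false, e true} : Finset ι).card = 2 := by
      rw [hU]; exact Finset.card_pair (h.hm.fpf _).symm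
    rw [h1, ← hC.card, ← Finset.card_compl_add_card ({e false, e true} : Finset ι), h2]
  rcases h.pc hC.symm hC.hl me triv N (fun u hu => (mN u).1 hu) hNm {v | ¬ On σ v} Set.univ
    (fun o ho => ho) with ⟨σ', m', h1, h2⟩ | ⟨τ, -, m0, σ', m', h1, h2, h3⟩ | ⟨A, X0, n⟩
  · exact absurd ⟨σ', m', ∅, h1, Or.inl rfl, hU ▸ co_imp h2⟩ hopt
  · exact absurd ⟨σ', m', ∅, h2, Or.inl rfl, hU ▸ xch_keep hC.hl h.hm h1 h3⟩ hopt
  set F : Bool → Finset V := fun c => Finset.univ.filter fun v =>
    v ∈ A c ∧ ∃ u ∈ N, v ∈ line σ m u ∧ ¬ Btw (line σ m u) (A c) v with hF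
  set X : Bool → Finset V := fun c => Finset.univ.filter fun v => v ∈ X0 c with hX
  have mF : ∀ c v, v ∈ F c ↔
      v ∈ A c ∧ ∃ u ∈ N, v ∈ line σ m u ∧ ¬ Btw (line σ m u) (A c) v := fun c v => by
    simp only [hF, Finset.mem_filter, Finset.mem_univ, true_and]
  have mX : ∀ c v, v ∈ X c ↔ v ∈ X0 c := fun c v => by simp [hX]
  have Xb : ∀ c, ∀ x ∈ X c, ∀ u, x ∈ line σ m u → Btw (line σ m u) (A c) x := by
    intro c x hx u hu
    rcases n.n2 c x ((mX c x).1 hx) with h1 | ⟨-, u', -, h1⟩
    · exact absurd (On.of_line hu) h1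
    · exact btw_line h hu h1
  have Xnt : ∀ c, ∀ x ∈ X c, ∀ i, x ≠ t i := fun c x hx i he =>
    h.btw_nt (Xb c x hx i (he ▸ h.t_mem_line.2 (Or.inl rfl))) i he
  have eF : ∀ c c', t (e c) ∉ F c' := by
    intro c c' hc
    obtain ⟨-, u, hu, h1, -⟩ := (mF _ _).1 hc
    rcases h.t_mem_line.1 h1 with h2 | h2
    · exact (mN u).1 hu c h2.symm
    · exact (mN _).1 (hNm u hu) c h2.symm
  have hcl : ∀ c x v, x = t (e c) ∨ x ∈ X c → E x v → v = t (e c) ∨ v ∈ X c ∨ v ∈ F c := by
    intro c x v hx he
    rcases n.n1 c x v (hx.imp_right (mX c x).1) he with h1 | h1 | ⟨h1, h2⟩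
    · exact Or.inl h1
    · exact Or.inr (Or.inl ((mX c v).2 h1))
    obtain ⟨u, hu⟩ : On σ v := not_not.1 h2
    by_cases hr : Rl e u
    · have h3 : v ∈ line σ m u := mem_line.2 (Or.inl hu)
      by_cases hb : Btw (line σ m u) (A c) v
      · exact Or.inr (Or.inl ((mX c v).2 (n.n3 c v trivial u ((mN u).2 hr) hb)))
      · exact Or.inr (Or.inr ((mF c v).2 ⟨h1, u, (mN u).2 hr, h3, hb⟩))
    · obtain ⟨c', hc'⟩ := not_forall.1 hr
      rw [not_not.1 hc', triv, List.mem_singleton] at hu
      by_cases hcc : c' = c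
      · exact Or.inl (hcc ▸ hu)
      · rw [hu, Bool.eq_not_of_ne hcc] at h1
        exact absurd h1 (n.n4 c)
  have hk1 := fun c => hC.hk_one {x | x = t (e c) ∨ x ∈ X c} (F c) (e c) (Or.inl rfl)
    (fun i hi => hi.elim (fun a => hC.tinj a) fun a => absurd rfl (Xnt c _ a i))
    fun x hx w hw => or_assoc.2 (hcl c x w hx hw)
  obtain ⟨fc1, fc2⟩ := h.fr_count N hNm A F (fun c v hv => (mF c v).1 hv) n.n5
  have cF : ∀ c, (F c).card + 1 = k := by
    have a1 := (hk1 false).1
    have a2 := (hk1 true).1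
    intro c
    cases c <;> omega
  have types := fc2 (by have := cF false; have := cF true; omega)
  have gad : ∀ c, Gad E t k (e c) (X c) (F c) := by
    intro c
    have hZ : (insert (t (e c)) (F c)).card ≤ k := by
      rw [← cF c]; exact Finset.card_insert_le _ _
    have hN' : ∀ x, x = t (e c) ∨ x ∈ X c → ∀ w, E x w →
        w ∈ X c ∨ w ∈ insert (t (e c)) (F c) := fun x hx w hw => by
      have := hcl c x w hx hw
      rw [Finset.mem_insert]
      tauto
    refine ⟨Xnt c, lemI_twoR hC hM hn _ _ (Xnt c) hZ (fun x hx => hN' x (Or.inr hx))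
      (Finset.mem_insert_self _ _) ?_, cF c, eF c c,
      fun x hx hf => ?_, fun x hx v => ⟨fun he => ⟨fun a => hC.irr x (a ▸ he), ?_⟩, fun a => ?_⟩,
      fun v => ⟨fun he => ?_, fun a => ?_⟩⟩
    · by_contra hc
      rw [Finset.not_nonempty_iff_eq_empty] at hc
      have := hC.deg_t (e c) (F c) fun w hw => by
        rcases hcl c _ w (Or.inl rfl) hw with a | a | a
        · exact absurd (a ▸ hw) (hC.irr _)
        · simp [hc] at a
        · exact a
      have := cF c
      omega
    · obtain ⟨-, u, -, h1, h2⟩ := (mF _ _).1 hf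
      exact h2 (Xb c x hx u h1)
    · have := hcl c x v (Or.inr hx) he
      tauto
    · refine lemI_ntR hC hM hn _ _ (Xnt c) hZ (fun x hx => hN' x (Or.inr hx)) hx ?_ a.1.symm
      have := a.2
      rw [Finset.mem_insert]
      tauto
    · rcases hcl c _ v (Or.inl rfl) he with a | a
      · exact absurd (a ▸ he) (hC.irr _)
      · exact a
    · refine lemI_tR hC hM hn _ _ (Xnt c) hZ (fun x hx => hN' x (Or.inr hx))
        (Finset.mem_insert_self _ _) (fun hc => ?_) (hN' _ (Or.inl rfl))
        (a.imp_right Finset.mem_insert_of_mem) fun he => ?_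
      · rcases Finset.mem_insert.1 hc with b | b
        · exact hC.hl.fpf _ (hC.tinj b)
        · exact (hk1 c).2 (by have := cF c; omega) b
      · rcases a with a | a
        · exact Xnt c v a _ he.symm
        · exact eF c c (he ▸ a)
  obtain ⟨pre, mid, gate, hg⟩ := h.gates (A false ∪ A true)
  have sub : ∀ c, A c ⊆ A false ∪ A true := fun c => by cases c <;> simp
  have hg' := fun u (hu : Rl e u) => hg u (by
    rcases types u ((mN u).2 hu) with ⟨x, a, -, -, -, b, -⟩ | ⟨x, a, -, -, -, b, -⟩ | ⟨x, a, b, -⟩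
    · exact ⟨x, a, Or.inl b⟩
    · exact ⟨x, a, Or.inr b⟩
    · exact ⟨x, a, Or.inl b⟩)
  have gl : ∀ u, Rl e u → ∃ R, line σ m u = pre u ++ gate u :: R := fun u hu => by
    by_cases hd : Dbl (line σ m u) (A false ∪ A true)
    · exact ⟨_, ((hg' u hu).2.2.1 hd).1⟩
    · exact ⟨_, ((hg' u hu).2.2.2 hd).1⟩
  have gm : ∀ u, Rl e u → gate u ∈ line σ m u := fun u hu => by
    obtain ⟨R, hR⟩ := gl u hu
    rw [hR]; simp
  have gF : ∀ u c, Rl e u → gate u ∈ A c → gate u ∈ F c := fun u c hu hc => by
    refine (mF _ _).2 ⟨hc, u, (mN u).2 hu, gm u hu, ?_⟩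
    obtain ⟨R, hR⟩ := gl u hu
    have hn := h.line_nodup u
    rw [hR] at hn ⊢
    exact not_btw_init hn fun x hx a => (hg' u hu).2.1 x hx (sub c a)
  have n5 : ∀ c u, Rl e u → ∀ x ∈ line σ m u, ∀ y ∈ line σ m u, x ∈ A c → y ∈ A (!c) → x = y := by
    intro c u hu x hx y hy a b
    cases c
    · exact n.n5 u ((mN u).2 hu) x hx y hy a b
    · exact (n.n5 u ((mN u).2 hu) y hy x hx b a).symm
  have excl : ∀ c u, Rl e u → Dbl (line σ m u) (A c) → ∀ y ∈ line σ m u, y ∉ A (!c) := by
    rintro c u hu ⟨x, a, x', a', ne, b, b'⟩ y hy hc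
    exact ne ((n5 c u hu x a y hy b hc).trans (n5 c u hu x' a' y hy b' hc).symm)
  have gA : ∀ c u, Rl e u → Dbl (line σ m u) (A c) → gate u ∈ A c := by
    intro c u hu hd
    have a1 := (hg' u hu).1
    have a2 := excl c u hu hd _ (gm u hu)
    cases c
    · exact a1.resolve_right a2
    · exact a1.resolve_left a2
  refine ⟨X, F, fun u => if Dbl (line σ m u) (A false) then some false
    else if Dbl (line σ m u) (A true) then some true else none, pre, mid, gate, h, me, triv, gad,
    fun c => eF c _, fun c f hf => ?_, fun u => by simp only [dbl_m_iff h.hm],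
    fun u c hu hty => ?_, fun u hu hty => ?_, fun u hu v hv c => ⟨fun a => ?_, fun a => ?_⟩⟩
  · obtain ⟨-, u, hu, h1, -⟩ := (mF _ _).1 hf
    exact ⟨u, (mN u).1 hu, h1⟩
  · have hd : Dbl (line σ m u) (A c) := by
      split_ifs at hty with a b
      · exact Option.some.inj hty ▸ a
      · exact Option.some.inj hty ▸ b
    have hd' : Dbl (line σ m u) (A false ∪ A true) := by
      obtain ⟨x, a, x', a', ne, b, b'⟩ := hd
      exact ⟨x, a, x', a', ne, sub c b, sub c b'⟩
    obtain ⟨a1, a2⟩ := (hg' u hu).2.2.1 hd'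
    refine ⟨a1, gF u c hu (gA c u hu hd), fun a => excl c u hu hd _ (gm u hu) ((mF _ _).1 a).1,
      fun x hx => (mX c x).2 (n.n3 c x trivial u ((mN u).2 hu) ?_), a2⟩
    rw [a1]
    exact btw_of_mid (gA c u hu hd) (gA c _ (rlm u hu) ((dbl_m_iff h.hm).2 hd)) hx
  · split_ifs at hty with a b
    obtain ⟨g, g1, g2, g3⟩ := ((types u ((mN u).2 hu)).resolve_left a).resolve_left b
    have key : ∀ x ∈ line σ m u, x ∈ A false ∪ A true → x = g := fun x hx hA =>
      hA.elim (fun a => n5 false u hu x hx g g1 a g3) fun a => n5 true u hu x hx g g1 a g2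
    obtain ⟨a1, a2⟩ := (hg' u hu).2.2.2 fun ⟨x, a, x', a', ne, b, b'⟩ =>
      ne ((key x a b).trans (key x' a' b').symm)
    refine ⟨a1, a2, fun c => gF u c hu ?_⟩
    rw [key _ (gm u hu) (hg' u hu).1]
    cases c
    · exact g2
    · exact g3
  · exact (hg' u hu).2.1 v hv (sub c ((mF _ _).1 a).1)
  · obtain ⟨R, hR⟩ := gl u hu
    obtain ⟨p1, p2, hp⟩ := List.append_of_mem hv
    have hb := Xb c v a u (by rw [hR]; simp [hv])
    have hn := h.line_nodup u
    rw [hR, hp, List.append_assoc, List.cons_append] at hn hb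
    exact not_btw_init hn (fun x hx a => (hg' u hu).2.1 x (by rw [hp]; simp [hx]) (sub c a)) hb

end TSxS

section VLxS

variable {V ι : Type} [Fintype ι] [Fintype V] {E : V → V → Prop} {t : ι → V} {l : ι → ι} {k : ℕ}
  {σ : ι → List V} {m : ι → ι} {e : Bool → ι} {X F : Bool → Finset V} {ty : ι → Option Bool}
  {pre mid : ι → List V} {gate : ι → V}

namespace VLx

end VLx

open VLx in
/-- Sketch. Suppose there is no valid link. Let `O` be the vertices off the system and outside
`X false ∪ X true`, `Γ = F false ∩ F true`. For a set `W` of zone vertices let `Reg W` be `W`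
together with all `o` with `RO E O w o`, `w ∈ W`. Let `Y c = {t (e c)} ∪ X c ∪ Reg (zones of
the realized indices of type some c)` and `Y' u = Reg (zone u)` for type `none`. A vertex `v ∉ O`
hit from a zone vertex (`Hit.path`, cut the zones at the two ends) lies in a zone (then there is
a valid link unless both are of the same world), in `Γ`, or in a gadget (then the previous vertex
is a gate of that side by `Gad.adjX`, `Gad.adja`). So each world has its `E`-neighbours in
itself or in `Γ`. If `Γ = ∅`, `Cx.hc` for `Y false` puts `t (e true)` in it: false. Otherwise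
some line has type `none` with an alive end `u` (`TS.alive`); `Cx.hk_one` for `Y' u` gives
`|Γ| = k - 1` and `t (l u) ∉ Γ`, so `F c = Γ`, no line has a type `some c`, and the union of
`Y' u` with the world of `l u` has all neighbours in the whole graph in itself or `Γ` and misses
one of `t (e false)`, `t (e true)`: this contradicts `Cx.hk`. -/
theorem TS.vl_existsR (hC : Cx E t l k) (H1 : Sep E t l k (OneE t l))
    (T : TS E t k σ m e X F ty pre mid gate) :
    ∃ c i j Pi q Pj, VL E σ e X ty pre gate c i j Pi q Pj := by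
  by_contra hno
  have hs := hC.symm
  rcases (F false ∩ F true).eq_empty_or_nonempty with hG | ⟨g, hg⟩
  · have h1 := hC.hc (Wd E t σ e X ty pre gate false) fun x hx w hw => by
      rcases wd_step hs T hno hx hw with a | a
      · exact a
      · rw [hG] at a; simp at a
    have h2 := even_card T.st.hm (Finset.univ.filter fun j => Rl e j ∧ ty j = some false)
      fun j hj => by
        rw [Finset.mem_filter] at hj ⊢
        exact ⟨Finset.mem_univ _, T.rl_m hj.2.1, by rw [T.tym, hj.2.2]⟩
    have h3 : (Finset.univ.filter fun i => t i ∈ Wd E t σ e X ty pre gate false) =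
        insert (e false) (Finset.univ.filter fun j => Rl e j ∧ ty j = some false) := by
      ext i
      simp only [Finset.mem_filter, Finset.mem_univ, true_and, Finset.mem_insert]
      constructor
      · rintro (h | h | ⟨j, hj, h, h'⟩)
        · exact Or.inl (hC.tinj h)
        · exact absurd rfl ((T.gad false).nt _ h i)
        · rw [rg_term T hj h']
          exact Or.inr ⟨hj, h⟩
      · rintro (rfl | ⟨h, h'⟩)
        · exact Or.inl rfl
        · exact Or.inr (Or.inr ⟨i, h, h',
            Or.inl (t_zone T h (List.ne_nil_of_mem (gate_zone h')))⟩)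
    rw [h3, Finset.card_insert_of_notMem (fun h => (Finset.mem_filter.1 h).2.1 false rfl),
      Nat.even_add_one] at h1
    exact h1 h2
  obtain ⟨u, hr, hty, hz⟩ : ∃ u, Rl e u ∧ ty u = none ∧ zone ty pre gate u ≠ [] := by
    obtain ⟨u, hr, h1, rfl⟩ := T.F_on hs (Finset.mem_inter.1 hg).1
    have hty : ty u = none := by
      rcases ty_cases _ _ h1 with h | h
      · exact h
      · exact absurd (Finset.mem_inter.1 hg).2 (T.dbl u false hr h).2.2.1
    by_cases hz : zone ty pre gate u = []
    · exact ⟨m u, T.rl_m hr, by rw [T.tym, hty], T.alive hr hz⟩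
    · exact ⟨u, hr, hty, hz⟩
  have htu : t u ∈ Rg E σ X ty pre gate u := Or.inl (t_zone T hr hz)
  obtain ⟨k1, k2⟩ := hC.hk_one _ (F false ∩ F true) u htu (fun i hi => rg_term T hr hi)
    (fun x hx w hw => rg_step' hs T hno hr hty hx hw)
  have hsub : ∀ c, F false ∩ F true ⊆ F c := fun c => by
    cases c
    · exact Finset.inter_subset_left
    · exact Finset.inter_subset_right
  have hlt : (F false ∩ F true).card < k := by
    have := Finset.card_le_card (hsub false)
    have := (T.gad false).card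
    omega
  have heq : ∀ c, F false ∩ F true = F c := fun c =>
    Finset.eq_of_subset_of_card_le (hsub c) (by have := (T.gad c).card; omega)
  have hnone : ∀ j, Rl e j → ∀ c, ty j ≠ some c := fun j hj c h => by
    obtain ⟨-, a1, a2, -⟩ := T.dbl j c hj h
    rw [← heq] at a1
    exact a2 (hsub _ a1)
  have huG : t u ∉ F false ∩ F true := fun h =>
    hnone u hr false ((rg_nt hs T hr htu).2.2 false (hsub _ h))
  -- the world of the partner
  obtain ⟨Y, c, y1, y2, y3, y4⟩ : ∃ (Y : Set V) (c : Bool), t (l u) ∈ Y ∧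
      (∀ i, t i ∈ Y → i = l u) ∧ t (e c) ∉ Y ∧
      ∀ x ∈ Y, ∀ w, E x w → w ∈ Y ∨ w ∈ F false ∩ F true := by
    by_cases hr' : Rl e (l u)
    · have hty' : ty (l u) = none := by
        rcases h : ty (l u) with _ | c
        · rfl
        · exact absurd h (hnone _ hr' c)
      have hz' : zone ty pre gate (l u) ≠ [] := by
        intro h0
        obtain ⟨a1, -, a3⟩ := T.sgl _ hr' hty'
        have hp : pre (l u) = [] := by simpa [zone, hty'] using h0
        obtain ⟨r, hr⟩ := T.st.line_cons (l u)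
        rw [hr, hp] at a1
        simp only [List.nil_append, List.cons.injEq] at a1
        exact k2 hlt (a1.1 ▸ Finset.mem_inter.2 ⟨a3 _, a3 _⟩)
      exact ⟨Rg E σ X ty pre gate (l u), false, Or.inl (t_zone T hr' hz'),
        fun i hi => rg_term T hr' hi, fun h => (rg_nt hs T hr' h).2.1 _ rfl,
        fun x hx w hw => rg_step' hs T hno hr' hty' hx hw⟩
    · unfold Rl at hr'
      push Not at hr'
      obtain ⟨c, hc⟩ := hr'
      refine ⟨Wd E t σ e X ty pre gate c, !c, Or.inl (by rw [hc]), ?_, wd_missR hC.toCb T c,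
        fun x hx w hw => wd_step hs T hno hx hw⟩
      rintro i (h | h | ⟨j, hj, h, -⟩)
      · rw [hc]; exact hC.tinj h
      · exact absurd rfl ((T.gad c).nt _ h i)
      · exact absurd h (hnone j hj c)
  have := H1 (Rg E σ X ty pre gate u ∪ Y) (F false ∩ F true) (t u) (t (e c)) (Or.inl htu) huG
    (by
      rintro (h | h)
      · exact (rg_nt hs T hr h).2.1 _ rfl
      · exact y3 h)
    (fun h => (T.gad c).aF (hsub c h))
    (by
      rintro x hx - w (hw | ⟨i, rfl, rfl⟩)
      · rcases hx with hx | hx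
        · rcases rg_step' hs T hno hr hty hx hw with a | a
          · exact Or.inl (Or.inl a)
          · exact Or.inr a
        · rcases y4 x hx w hw with a | a
          · exact Or.inl (Or.inr a)
          · exact Or.inr a
      · rcases hx with hx | hx
        · rw [rg_term T hr hx]
          exact Or.inl (Or.inr y1)
        · rw [y2 i hx, hC.hl.inv]
          exact Or.inl (Or.inl htu))
    (by
      have key : ∀ i, t i ∈ Rg E σ X ty pre gate u ∪ Y → i = u ∨ i = l u := fun i hi =>
        hi.imp (rg_term T hr) (y2 i)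
      intro i j hi _ hj _
      rcases key i hi with rfl | rfl
      · exact key j hj
      · rw [hC.hl.inv]
        exact (key j hj).symm)
  omega

end VLxS

section HHS

variable {V ι : Type} [Fintype ι] [Fintype V] {E : V → V → Prop} {t : ι → V} {l : ι → ι} {k : ℕ}
  {σ : ι → List V} {m : ι → ι} {e : Bool → ι} {X F : Bool → Finset V} {ty : ι → Option Bool}
  {pre mid : ι → List V} {gate : ι → V}
  {σ2 : ι → List V} {m2 : ι → ι} {e' : Bool → ι} {Y H : Bool → Finset V} {ty' : ι → Option Bool}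
  {pre' mid' : ι → List V} {gate' : ι → V} {c : Bool} {z : ι}

/-- some line is double -/
theorem hh_someR (hC : Cx E t l k) (H1 : Sep E t l k (OneE t l))
    (T : TS E t k σ m e X F ty pre mid gate)
    (hl : ∀ c', l (e c') = e (!c')) (h1 : Rl e z) (h6 : pre z ≠ []) :
    ∃ u c0, Rl e u ∧ ty u = some c0 := by
  by_contra hno
  have hF : ∀ c', ∀ f ∈ F c', f ∈ F false := fun c' f hf => by
    obtain ⟨u, a1, -, rfl⟩ := T.F_on hC.symm hf
    refine (T.sgl u a1 ?_).2.2 _
    rcases hu : ty u with _ | c0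
    · rfl
    · exact absurd ⟨u, c0, a1, hu⟩ hno
  have := H1 {v | ∃ c', v ∈ X c' ∨ v = t (e c')} (F false) (t (e false)) (t z)
    ⟨false, Or.inr rfl⟩ (T.gad false).aF ?_ (T.hh_t_notF h1 h6 false) ?_ ?_
  · have := (T.gad false).card
    omega
  · rintro ⟨c', a | a⟩
    · exact (T.gad c').nt _ a _ rfl
    · exact h1 c' (hC.tinj a)
  · rintro x ⟨c', a | rfl⟩ - w (b | ⟨i, b1, b2⟩)
    · rcases (((T.gad c').adjX x a w).1 b).2 with d | d | d
      · exact Or.inl ⟨c', Or.inl d⟩
      · exact Or.inr (hF c' w d)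
      · exact Or.inl ⟨c', Or.inr d⟩
    · exact absurd b1 ((T.gad c').nt _ a _)
    · rcases ((T.gad c').adja w).1 b with d | d
      · exact Or.inl ⟨c', Or.inl d⟩
      · exact Or.inr (hF c' w d)
    · refine Or.inl ⟨!c', Or.inr ?_⟩
      rw [b2, ← hC.tinj b1, hl]
  · have key : ∀ i, t i ∈ {v | ∃ c', v ∈ X c' ∨ v = t (e c')} → ∃ c', i = e c' := by
      rintro i ⟨c', a | a⟩
      · exact absurd rfl ((T.gad c').nt _ a i)
      · exact ⟨c', hC.tinj a⟩
    intro i j hi _ hj _
    obtain ⟨c1, rfl⟩ := key i hi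
    obtain ⟨c2, rfl⟩ := key j hj
    rw [hl]
    cases c1 <;> cases c2 <;> simp

end HHS

section StepPS

variable {V ι : Type} [Fintype ι] [Fintype V] {E : V → V → Prop} {t : ι → V} {l : ι → ι} {k : ℕ}
  {σ : ι → List V} {m : ι → ι}

theorem stepPR (hC : Cx E t l k) (H1 : Sep E t l k (OneE t l)) (hM : EMax E t l)
    (hn : ¬ Sol E t l) {a : ι}
    (h : St E t σ m {a, m a}) (hopt : ¬ Imp E t l m {a, m a})
    (hmin : ∀ σ', St E t σ' m {a, m a} → len σ ≤ len σ') : False := by
  obtain ⟨e, ef, et⟩ : ∃ e : Bool → ι, e false = a ∧ e true = m a :=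
    ⟨fun c => cond c (m a) a, rfl, rfl⟩
  have hm := h.hm
  have hs := hC.symm
  have hl := hC.hl
  have me : ∀ c, m (e c) = e (!c) := fun c => by cases c <;> simp [ef, et, hm.inv]
  rw [← et, ← ef] at h hopt hmin
  clear ef et
  have triv : ∀ c, σ (e c) = [t (e c)] := by
    intro c
    obtain ⟨r, hr⟩ := h.eq_cons (e c)
    by_contra hc
    have hr0 : r ≠ [] := fun a => hc (by rw [hr, a])
    obtain ⟨σ', h1, h2, h3⟩ := h.trim hs (u := e c) (P := [t (e c)]) (R := r)
      (by cases c <;> simp) hr (by simp)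
    refine absurd (hmin σ' h1) (not_le.2 (St.len_lt hm (e c) ?_ fun i a _ => h3 i a))
    have := List.length_pos_iff.2 hr0
    rw [line, line, h2, h3 _ (hm.fpf _), hr]
    simpa using this
  obtain ⟨X, F, ty, pre, mid, gate, T⟩ := ts_existsR hC hM hn h me triv hopt
  have hmid : ∀ u c, Rl e u → ty u = some c → (mid u).length ≤ 1 := by
    intro u c hu hty
    by_contra hc
    obtain ⟨a1, -, -, a2, -⟩ := T.dbl u c hu hty
    obtain ⟨-, a3, -⟩ := T.dbl (m u) c (T.rl_m hu) (by rw [T.tym, hty])
    obtain ⟨x, r, hx⟩ := List.exists_cons_of_ne_nil (l := mid u) (fun a => by simp [a] at hc)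
    have hr : r ≠ [] := fun a => by simp [hx, a] at hc
    have hX : x ∈ X c := a2 x (by simp [hx])
    have ch := T.chain hu
    have a4 : line σ m u = (pre u ++ [gate u] ++ [x]) ++ r ++ gate (m u) :: (pre (m u)).reverse := by
      rw [a1, hx]; simp
    rw [a4] at ch
    obtain ⟨σ', h1, h2⟩ := h.shorten hs (T.not_mem.2 hu) a4 (by simp) hr (by simp) (by
      rw [List.append_assoc, List.singleton_append]
      exact chain_edge (chain_left (chain_left ch)) (((T.gad c).adjX x hX _).2
        ⟨fun a => (T.gad c).XF x hX (a ▸ a3), Or.inr (Or.inl a3)⟩) (chain_right ch))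
    exact absurd (hmin σ' h1) (not_le.2 h2)
  obtain ⟨c, i, j, Pi, q, Pj, L⟩ := T.vl_existsR hC H1
  have win : ∀ σ' m', St E t σ' m' ∅ → Phi l m {e c, m (e c)} < Phi l m' ∅ → False :=
    fun σ' m' a b => hopt ⟨σ', m', ∅, a, Or.inl rfl, by rwa [T.pair_eq c]⟩
  by_cases hj : j = m i
  · obtain ⟨σ', h1⟩ := T.vl_same hs L hj
    exact win σ' m h1 (co_imp Co.refl)
  obtain ⟨σ1, m1, G⟩ := T.f1_exists hs L hj
  have tri := F1.tri T L G
  rcases tri.v1 hl hm with h1 | ⟨hcl, hij, hab, hsp⟩
  · exact win σ1 m1 G.st h1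
  have rl : ∀ u, u ≠ e c → u ≠ m (e c) → Rl e u := fun u a b c' => by
    by_cases hc : c' = c
    · exact hc ▸ a
    · rw [Bool.eq_not_of_ne hc, ← me]; exact b
  obtain ⟨z, hz, z1, z2, z3, z4⟩ := tri.dparity hl hm hab hsp ty
    (fun u => zone ty pre gate u ≠ []) c T.tym (fun u a => by simp [zone, a])
    (fun u a b d => T.alive (rl u a b) (not_not.1 d))
    (fun a => L.ni (by simpa [a] using L.pi)) (fun a => L.nj (by simpa [a] using L.pj))
    L.ti L.tj
  have hz' : cc l m1 ∅ i (l z) := hz.trans (cc.stl z)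
  obtain ⟨d1, d2, d3, d4, d5, d6⟩ := tri.dfacts hl hm hij hab hsp hz
  obtain ⟨f1, f2, f3, f4, -, -⟩ := tri.dfacts hl hm hij hab hsp hz'
  have r1 := rl z d1 d2
  have r2 := rl _ f1 f2
  obtain ⟨σ2, m2, S⟩ := T.sw_exists hs hl r1 r2 d6 z3 z4 z1 z2
  obtain ⟨p1, p2⟩ := swap_phi (a := e c) hl hm (fun y hy => hcl y (d5.trans hy)) d6 S.st.hm S.mz
    S.ma (by rw [me]; exact S.mb) fun u a b d => (S.oth u (rl u a b) d).1
  rw [← T.pair_eq c] at p1 p2
  have hla : l (e c) = m (e c) := by
    by_contra hc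
    exact hopt ⟨σ2, m2, _, S.st, Or.inr ⟨z, by rw [S.mz]⟩, p2 hc⟩
  have hla' : l (e false) = e true := by
    rw [me] at hla
    cases c
    · exact hla
    · exact hl.eq_iff.2 hla.symm
  obtain ⟨e', e1, e2⟩ : ∃ e' : Bool → ι, e' c = z ∧ e' (!c) = l z :=
    ⟨fun c' => if c' = c then z else l z, by simp, by simp⟩
  have hU : ({e' false, e' true} : Finset ι) = {z, l z} := by
    rw [← e2, ← e1]
    cases c
    · rfl
    · exact Finset.pair_comm _ _
  have cs : ∀ c', c' = c ∨ c' = !c := fun c' => by cases c <;> cases c' <;> simp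
  obtain ⟨Y, H, ty', pre', mid', gate', T'⟩ := ts_existsR (e := e') hC hM hn (hU ▸ S.st)
    (fun c' => by
      rcases cs c' with rfl | rfl
      · rw [e1, e2, S.mz]
      · rw [Bool.not_not, e1, e2, ← S.mz, S.st.hm.inv])
    (fun c' => by
      rcases cs c' with rfl | rfl
      · rw [e1, S.sz]
      · rw [e2, S.slz])
    (by
      rintro ⟨σ', m', U', a, b, d⟩
      rw [hU] at d
      exact hopt ⟨σ', m', U', a, b, p1.trans_lt d⟩)
  by_cases t1 : ty z = some c
  · obtain ⟨σ', m', a, b, d⟩ := dbl_caseR hC.toCb T hmid L G hsp hz d3 d4 r1 r2 t1 z4 z2 S e1 e2 T'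
    exact win σ' m' a (tri.win hm hab b d)
  have hij1 : cc l m1 ∅ i j := cc.of_eq G.mi
  by_cases t2 : ty (l z) = some (!c)
  · obtain ⟨σ', m', a, b, d⟩ := dbl_caseR hC.toCb T hmid (L.symm hs) (G.symm hm)
      (fun a => hsp (hij1.trans (a.trans (me c ▸ hab.symm)))) (hij1.symm.trans hz') f4 f3 r2
      (by rwa [hl.inv]) t2 (by rwa [hl.inv]) (by rwa [hl.inv]) (S.symm hl hm) e2
      (by rw [Bool.not_not, hl.inv, e1]) T'
    exact win σ' m' a (tri.win hm hab b
      ((b _ _ hij1).trans (d.trans (me c ▸ (b _ _ hab).symm))))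
  have t3 : ty z = none := by
    rcases hty : ty z with _ | c'
    · rfl
    · rcases cs c' with rfl | rfl
      · exact absurd hty t1
      · exact absurd hty z3
  have t4 : ty (l z) = none := by
    rcases hty : ty (l z) with _ | c'
    · rfl
    · rcases cs c' with rfl | rfl
      · exact absurd hty z4
      · exact absurd hty t2
  exact hopt (hh_caseR hC.toCb T hla' r1 r2 d6 t3 t4 (by simpa [zone, t3] using z1)
    (by simpa [zone, t4] using z2) S e1 e2 T' (hh_someR hC H1 T (fun c' => by
      cases c'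
      · exact hla'
      · exact hl.eq_iff.2 hla'.symm) r1 (by simpa [zone, t3] using z1)))

end StepPS

end Pool.Agent.P.MP_4197d5_co
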